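import Mathlib

/-! Auxiliary smooth step functions: `stair` (a `C^1` function agreeing with the floor function on
`[n, n+1/2]`) and `ramp` (a `C^1` function that is `0` on `(-∞, 1/2]` and `1` on `[1, ∞)`). -/

namespace Pool.Agent.PlanarGap

open MeasureTheory intervalIntegral Real Set

/-- the density of the stair function -/
noncomputable def den (s : ℝ) : ℝ := π * max 0 (-Real.sin (2 * π * s))

lemma den_cont : Continuous den := by
  unfold den; fun_prop

lemma den_nonneg (s : ℝ) : 0 ≤ den s := by
  unfold den; positivity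

lemma den_le (s : ℝ) : den s ≤ π := by
  unfold den
  have h1 : max 0 (-Real.sin (2 * π * s)) ≤ 1 := by
    apply max_le (by norm_num)
    linarith [Real.neg_one_le_sin (2 * π * s)]
  nlinarith [Real.pi_pos]

lemma den_periodic : Function.Periodic den 1 := by
  intro s
  unfold den
  rw [show 2 * π * (s + 1) = 2 * π * s + 2 * π by ring, Real.sin_add_two_pi]

lemma den_add_int (s : ℝ) (n : ℤ) : den (s + n) = den s := by
  simpa using den_periodic.int_mul n s

lemma den_zero_of_mem {s : ℝ} (h0 : 0 ≤ s) (h1 : s ≤ 1 / 2) : den s = 0 := by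
  unfold den
  have : 0 ≤ Real.sin (2 * π * s) := by
    apply Real.sin_nonneg_of_nonneg_of_le_pi
    · positivity
    · nlinarith [Real.pi_pos]
  rw [max_eq_left (by linarith)]
  simp

lemma den_zero_nat (n : ℕ) {v : ℝ} (h0 : 0 ≤ v) (h1 : v ≤ 1 / 2) : den (n + v) = 0 := by
  rw [add_comm, show (n : ℝ) = ((n : ℤ) : ℝ) by simp, den_add_int]
  exact den_zero_of_mem h0 h1

lemma den_of_mem' {s : ℝ} (h0 : 1 / 2 ≤ s) (h1 : s ≤ 1) : den s = -(π * Real.sin (2 * π * s)) := by
  unfold den
  have : Real.sin (2 * π * s) ≤ 0 := by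
    have h2 : 0 ≤ Real.sin (2 * π * s - π) := by
      apply Real.sin_nonneg_of_nonneg_of_le_pi
      · nlinarith [Real.pi_pos]
      · nlinarith [Real.pi_pos]
    rw [Real.sin_sub_pi] at h2
    linarith
  rw [max_eq_right (by linarith)]
  ring

lemma den_int (a b : ℝ) : IntervalIntegrable den volume a b := den_cont.intervalIntegrable a b

lemma integral_den_half {v : ℝ} (h0 : 0 ≤ v) (h1 : v ≤ 1 / 2) : ∫ s in (0:ℝ)..v, den s = 0 := by
  rw [intervalIntegral.integral_congr (g := fun _ => (0:ℝ))]
  · simp
  · intro s hs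
    rw [uIcc_of_le h0] at hs
    exact den_zero_of_mem hs.1 (hs.2.trans h1)

lemma integral_den_one : ∫ s in (0:ℝ)..1, den s = 1 := by
  rw [← intervalIntegral.integral_add_adjacent_intervals (den_int 0 (1/2)) (den_int (1/2) 1),
    integral_den_half (by norm_num) le_rfl]
  rw [intervalIntegral.integral_congr (g := fun s => -(π * Real.sin (2 * π * s)))]
  · rw [intervalIntegral.integral_neg, intervalIntegral.integral_const_mul,
      intervalIntegral.integral_comp_mul_left (f := Real.sin) (c := 2 * π)
        (by positivity)]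
    rw [integral_sin]
    have e1 : Real.cos (2 * π * (1 / 2)) = -1 := by
      rw [show 2 * π * (1 / 2) = π by ring]; exact Real.cos_pi
    have e2 : Real.cos (2 * π * 1) = 1 := by
      rw [mul_one]; exact Real.cos_two_pi
    rw [e1, e2, smul_eq_mul]
    field_simp
    norm_num
  · intro s hs
    rw [uIcc_of_le (by norm_num)] at hs
    exact den_of_mem' hs.1 hs.2

/-- the stair function -/
noncomputable def stair (u : ℝ) : ℝ := ∫ s in (0:ℝ)..u, den s

lemma stair_hasDerivAt (u : ℝ) : HasDerivAt stair (den u) u :=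
  intervalIntegral.integral_hasDerivAt_right (den_int 0 u)
    (den_cont.stronglyMeasurableAtFilter _ _) den_cont.continuousAt

lemma stair_add_one (u : ℝ) : stair (u + 1) = stair u + 1 := by
  unfold stair
  rw [← intervalIntegral.integral_add_adjacent_intervals (den_int 0 u) (den_int u (u + 1))]
  congr 1
  rw [den_periodic.intervalIntegral_add_eq u 0, zero_add, integral_den_one]

lemma stair_add_nat (u : ℝ) (n : ℕ) : stair (u + n) = stair u + n := by
  induction n with
  | zero => simp
  | succ n ih => push_cast; rw [← add_assoc, stair_add_one, ih, add_assoc]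

lemma stair_add_int (u : ℝ) (n : ℤ) : stair (u + n) = stair u + n := by
  obtain ⟨m, rfl | rfl⟩ := n.eq_nat_or_neg
  · simpa using stair_add_nat u m
  · have := stair_add_nat (u - m) m
    rw [sub_add_cancel] at this
    push_cast
    rw [← sub_eq_add_neg, this]; ring

lemma stair_half {v : ℝ} (h0 : 0 ≤ v) (h1 : v ≤ 1 / 2) : stair v = 0 := integral_den_half h0 h1

lemma stair_nat (n : ℕ) {v : ℝ} (h0 : 0 ≤ v) (h1 : v ≤ 1 / 2) : stair (n + v) = n := by
  rw [add_comm, stair_add_nat, stair_half h0 h1, zero_add]

lemma stair_unit {v : ℝ} (h0 : 0 ≤ v) (h1 : v ≤ 1) : 0 ≤ stair v ∧ stair v ≤ 1 := by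
  constructor
  · exact intervalIntegral.integral_nonneg h0 (fun s _ => den_nonneg s)
  · have h := intervalIntegral.integral_add_adjacent_intervals (den_int 0 v) (den_int v 1)
    rw [integral_den_one] at h
    have h2 : 0 ≤ ∫ s in v..1, den s := intervalIntegral.integral_nonneg h1 (fun s _ => den_nonneg s)
    unfold stair; linarith

lemma stair_sub_self (u : ℝ) : |stair u - u| ≤ 1 := by
  have h := stair_add_int (Int.fract u) ⌊u⌋
  rw [Int.fract_add_floor] at h
  obtain ⟨h0, h1⟩ := stair_unit (Int.fract_nonneg u) (Int.fract_lt_one u).le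
  have h2 : u = Int.fract u + ⌊u⌋ := (Int.fract_add_floor u).symm
  have h3 := Int.fract_nonneg u
  have h4 := (Int.fract_lt_one u).le
  rw [abs_le]
  constructor <;> linarith

/-- clipped density -/
noncomputable def den1 (s : ℝ) : ℝ := den (max 0 (min 1 s))

lemma den1_cont : Continuous den1 := by
  unfold den1; exact den_cont.comp (by fun_prop)

lemma den1_nonneg (s : ℝ) : 0 ≤ den1 s := den_nonneg _

lemma den1_le (s : ℝ) : den1 s ≤ π := den_le _

lemma den1_eq {s : ℝ} (h0 : 0 ≤ s) (h1 : s ≤ 1) : den1 s = den s := by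
  unfold den1; rw [min_eq_right h1, max_eq_right h0]

lemma den1_zero_left {s : ℝ} (h1 : s ≤ 1 / 2) : den1 s = 0 := by
  unfold den1
  rcases le_total 0 s with h | h
  · rw [min_eq_right (by linarith), max_eq_right h]; exact den_zero_of_mem h h1
  · rw [min_eq_right (by linarith), max_eq_left h]; exact den_zero_of_mem le_rfl (by norm_num)

lemma den1_zero_right {s : ℝ} (h1 : 1 ≤ s) : den1 s = 0 := by
  unfold den1
  rw [min_eq_left h1, max_eq_right (by norm_num)]
  have := den_zero_nat 1 (v := 0) le_rfl (by norm_num)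
  simpa using this

lemma den1_int (a b : ℝ) : IntervalIntegrable den1 volume a b := den1_cont.intervalIntegrable a b

/-- the ramp function -/
noncomputable def ramp (u : ℝ) : ℝ := ∫ s in (0:ℝ)..u, den1 s

lemma ramp_hasDerivAt (u : ℝ) : HasDerivAt ramp (den1 u) u :=
  intervalIntegral.integral_hasDerivAt_right (den1_int 0 u)
    (den1_cont.stronglyMeasurableAtFilter _ _) den1_cont.continuousAt

lemma ramp_left {u : ℝ} (h1 : u ≤ 1 / 2) : ramp u = 0 := by
  unfold ramp
  rw [intervalIntegral.integral_congr (g := fun _ => (0:ℝ))]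
  · simp
  · intro s hs
    apply den1_zero_left
    rcases le_total 0 u with h | h
    · rw [uIcc_of_le h] at hs; exact hs.2.trans h1
    · rw [uIcc_of_ge h] at hs; linarith [hs.2]

lemma ramp_right {u : ℝ} (h1 : 1 ≤ u) : ramp u = 1 := by
  unfold ramp
  rw [← intervalIntegral.integral_add_adjacent_intervals (den1_int 0 1) (den1_int 1 u)]
  have e1 : ∫ s in (0:ℝ)..1, den1 s = 1 := by
    refine (intervalIntegral.integral_congr ?_).trans integral_den_one
    intro s hs
    rw [uIcc_of_le (by norm_num)] at hs
    exact den1_eq hs.1 hs.2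
  have e2 : ∫ s in (1:ℝ)..u, den1 s = 0 := by
    rw [intervalIntegral.integral_congr (g := fun _ => (0:ℝ))]
    · simp
    · intro s hs
      rw [uIcc_of_le h1] at hs
      exact den1_zero_right hs.1
  rw [e1, e2]; norm_num

lemma ramp_bounds (u : ℝ) : 0 ≤ ramp u ∧ ramp u ≤ 1 := by
  rcases le_total u (1/2) with h | h
  · rw [ramp_left h]; norm_num
  rcases le_total 1 u with h' | h'
  · rw [ramp_right h']; norm_num
  constructor
  · exact intervalIntegral.integral_nonneg (by linarith) (fun s _ => den1_nonneg s)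
  · have h := intervalIntegral.integral_add_adjacent_intervals (den1_int 0 u) (den1_int u 1)
    have h2 : 0 ≤ ∫ s in u..1, den1 s :=
      intervalIntegral.integral_nonneg h' (fun s _ => den1_nonneg s)
    have h3 : ∫ s in (0:ℝ)..1, den1 s = 1 := ramp_right le_rfl
    unfold ramp; linarith

end Pool.Agent.PlanarGap
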