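import Mathlib
import Pool.Agent.MP_b109da_an.Stair

/-! Digit expansions `val b u = ∑ u_q b^{-q}` and the `C^1` leak function. -/

namespace Pool.Agent.PlanarGap

open Finset

/-- value of a digit sequence -/
noncomputable def val (b : ℕ) (u : ℕ → ℕ) : ℝ := ∑' q, (u q : ℝ) / (b : ℝ) ^ q

section val

variable {b N : ℕ} (hb : 4 * (N + 1) ≤ b) {u : ℕ → ℕ} (hu : ∀ q, u q ≤ N)

include hb in
lemma b_pos : (0 : ℝ) < b := by
  have : 0 < b := by omega
  exact_mod_cast this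

include hb in
lemma b_ge : 4 * ((N : ℝ) + 1) ≤ b := by exact_mod_cast hb

include hb in
lemma b_ge4 : (4 : ℝ) ≤ b := by
  have : 4 ≤ b := by omega
  exact_mod_cast this

include hb in
lemma geo_summable : Summable (fun q : ℕ => (N : ℝ) / (b : ℝ) ^ q) := by
  have h1 : Summable (fun q : ℕ => ((b : ℝ)⁻¹) ^ q) := by
    apply summable_geometric_of_lt_one
    · exact inv_nonneg.2 (b_pos hb).le
    · exact inv_lt_one_of_one_lt₀ (by linarith [b_ge4 hb])
  have h2 := h1.mul_left (N : ℝ)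
  refine h2.congr fun q => ?_
  rw [inv_pow, div_eq_mul_inv]

include hb in
lemma geo_tsum : ∑' q : ℕ, (N : ℝ) / (b : ℝ) ^ q ≤ N + 1 := by
  have h0 := b_ge4 hb
  have h1 : ∑' q : ℕ, ((b : ℝ)⁻¹) ^ q = (1 - (b : ℝ)⁻¹)⁻¹ := by
    apply tsum_geometric_of_lt_one
    · exact inv_nonneg.2 (b_pos hb).le
    · exact inv_lt_one_of_one_lt₀ (by linarith)
  have h2 : ∑' q : ℕ, (N : ℝ) / (b : ℝ) ^ q = N * (1 - (b : ℝ)⁻¹)⁻¹ := by
    rw [← h1, ← tsum_mul_left]
    exact tsum_congr fun q => by rw [inv_pow, div_eq_mul_inv]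
  rw [h2]
  have h3 : (1 - (b : ℝ)⁻¹) = (b - 1) / b := by
    field_simp
  rw [h3, inv_div, ← mul_div_assoc, div_le_iff₀ (by linarith)]
  have := b_ge hb
  nlinarith

include hb hu in
lemma val_summable : Summable (fun q => (u q : ℝ) / (b : ℝ) ^ q) := by
  refine Summable.of_nonneg_of_le (fun q => by positivity) (fun q => ?_) (geo_summable hb)
  have : (u q : ℝ) ≤ N := by exact_mod_cast hu q
  have := b_pos hb
  gcongr

lemma val_nonneg {b : ℕ} {u : ℕ → ℕ} : 0 ≤ val b u := tsum_nonneg fun q => by positivity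

include hb hu in
lemma val_le : val b u ≤ N + 1 := by
  refine le_trans ?_ (geo_tsum hb)
  refine Summable.tsum_le_tsum (fun q => ?_) (val_summable hb hu) (geo_summable hb)
  have : (u q : ℝ) ≤ N := by exact_mod_cast hu q
  have := b_pos hb
  gcongr

include hb hu in
lemma val_split (n : ℕ) :
    val b u = ∑ p ∈ range n, (u p : ℝ) / (b : ℝ) ^ p + val b (fun p => u (p + n)) / (b : ℝ) ^ n := by
  have h := (val_summable hb hu).sum_add_tsum_nat_add n
  unfold val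
  rw [← h]
  congr 1
  rw [← tsum_div_const]
  refine tsum_congr fun p => ?_
  rw [pow_add, div_div]

/-- integer part of `b^q * val u` -/
def pre (b : ℕ) (u : ℕ → ℕ) (q : ℕ) : ℕ := ∑ p ∈ range (q + 1), u p * b ^ (q - p)

include hb in
lemma pre_div (q : ℕ) : (pre b u q : ℝ) / (b : ℝ) ^ q = ∑ p ∈ range (q + 1), (u p : ℝ) / (b : ℝ) ^ p := by
  unfold pre
  push_cast
  rw [Finset.sum_div]
  refine Finset.sum_congr rfl fun p hp => ?_
  have hp' : p ≤ q := by simpa [Nat.lt_succ_iff] using hp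
  have h0 := (b_pos hb).ne'
  rw [div_eq_div_iff (by positivity) (by positivity)]
  rw [mul_assoc, ← pow_add, Nat.sub_add_cancel hp']

include hb hu in
lemma mul_val (q : ℕ) : ∃ v : ℝ, 0 ≤ v ∧ v ≤ 1 / 4 ∧ (b : ℝ) ^ q * val b u = pre b u q + v := by
  have h0 := b_pos hb
  have hu' : ∀ p, u (p + (q + 1)) ≤ N := fun p => hu _
  refine ⟨val b (fun p => u (p + (q + 1))) / b, ?_, ?_, ?_⟩
  · have := val_nonneg (b := b) (u := fun p => u (p + (q + 1)))
    positivity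
  · have := val_le hb hu'
    rw [div_le_iff₀ h0]
    have := b_ge hb
    linarith
  · rw [val_split hb hu (q + 1), ← pre_div hb]
    field_simp
    ring

lemma pre_zero {q : ℕ} (h : ∀ p, p ≤ q → u p = 0) : pre b u q = 0 := by
  unfold pre
  refine Finset.sum_eq_zero fun p hp => ?_
  rw [h p (by simpa [Nat.lt_succ_iff] using hp), zero_mul]

include hb in
lemma pre_pos {q p : ℕ} (hp : p ≤ q) (h : u p ≠ 0) : 1 ≤ pre b u q := by
  unfold pre
  have h1 : u p * b ^ (q - p) ≤ ∑ p ∈ range (q + 1), u p * b ^ (q - p) :=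
    Finset.single_le_sum (f := fun p => u p * b ^ (q - p)) (fun i _ => Nat.zero_le _)
      (by simpa [Nat.lt_succ_iff] using hp)
  have h2 : 1 ≤ u p * b ^ (q - p) := by
    have : 0 < b := by omega
    have h3 : 0 < u p := Nat.pos_of_ne_zero h
    have : 0 < u p * b ^ (q - p) := by positivity
    omega
  omega

include hb hu in
lemma stair_mul_val (q : ℕ) : stair ((b : ℝ) ^ q * val b u) = pre b u q := by
  obtain ⟨v, h0, h1, h2⟩ := mul_val hb hu q
  rw [h2]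
  exact stair_nat _ h0 (by linarith)

include hb hu in
lemma den_mul_val (q : ℕ) : den ((b : ℝ) ^ q * val b u) = 0 := by
  obtain ⟨v, h0, h1, h2⟩ := mul_val hb hu q
  rw [h2]
  exact den_zero_nat _ h0 (by linarith)

include hb hu in
lemma den1_mul_val (q : ℕ) : den1 ((b : ℝ) ^ q * val b u) = 0 := by
  obtain ⟨v, h0, h1, h2⟩ := mul_val hb hu q
  rw [h2]
  rcases Nat.eq_zero_or_pos (pre b u q) with h | h
  · rw [h]; apply den1_zero_left; push_cast; linarith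
  · apply den1_zero_right
    have : (1 : ℝ) ≤ pre b u q := by exact_mod_cast h
    linarith

include hb hu in
lemma ramp_mul_val_zero {q : ℕ} (h : ∀ p, p ≤ q → u p = 0) : ramp ((b : ℝ) ^ q * val b u) = 0 := by
  obtain ⟨v, h0, h1, h2⟩ := mul_val hb hu q
  rw [h2, pre_zero h]
  apply ramp_left; push_cast; linarith

include hb hu in
lemma ramp_mul_val_one {q p : ℕ} (hp : p ≤ q) (h : u p ≠ 0) :
    ramp ((b : ℝ) ^ q * val b u) = 1 := by
  obtain ⟨v, h0, h1, h2⟩ := mul_val hb hu q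
  rw [h2]
  apply ramp_right
  have : (1 : ℝ) ≤ pre b u q := by exact_mod_cast pre_pos hb hp h
  linarith

end val

/-- truncated expansion -/
noncomputable def fl (b q : ℕ) (z : ℝ) : ℝ := stair ((b : ℝ) ^ q * z) / (b : ℝ) ^ q

/-- terms of the leak function -/
noncomputable def leakTerm (b M τ : ℕ) (z : ℝ) : ℝ :=
  (ramp ((b : ℝ) ^ (2 * τ) * z) - ramp ((b : ℝ) ^ (2 * τ - 1) * z)) *
    (((b : ℝ) ^ (3 + 2 * τ))⁻¹ *
      ∑ o ∈ range (τ / 8), (fl b (2 * τ + M * o) z - fl b (2 * τ + M * o - 1) z))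

/-- derivative of the terms -/
noncomputable def leakTerm' (b M τ : ℕ) (z : ℝ) : ℝ :=
  (den1 ((b : ℝ) ^ (2 * τ) * z) * (b : ℝ) ^ (2 * τ)
      - den1 ((b : ℝ) ^ (2 * τ - 1) * z) * (b : ℝ) ^ (2 * τ - 1)) *
    (((b : ℝ) ^ (3 + 2 * τ))⁻¹ *
      ∑ o ∈ range (τ / 8), (fl b (2 * τ + M * o) z - fl b (2 * τ + M * o - 1) z)) +
  (ramp ((b : ℝ) ^ (2 * τ) * z) - ramp ((b : ℝ) ^ (2 * τ - 1) * z)) *
    (((b : ℝ) ^ (3 + 2 * τ))⁻¹ *
      ∑ o ∈ range (τ / 8), (den ((b : ℝ) ^ (2 * τ + M * o) * z)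
        - den ((b : ℝ) ^ (2 * τ + M * o - 1) * z)))

/-- the leak function -/
noncomputable def leak (b M : ℕ) (z : ℝ) : ℝ := ∑' τ, leakTerm b M τ z

/-- its derivative -/
noncomputable def leak' (b M : ℕ) (z : ℝ) : ℝ := ∑' τ, leakTerm' b M τ z

section leak

variable {b M : ℕ} (hb4 : 4 ≤ b)

include hb4 in
lemma fl_sub_self (q : ℕ) (z : ℝ) : |fl b q z - z| ≤ 1 / (b : ℝ) ^ q := by
  have h0 : (0 : ℝ) < b := by
    have : 0 < b := by omega
    exact_mod_cast this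
  have h1 := stair_sub_self ((b : ℝ) ^ q * z)
  have h2 : fl b q z - z = (stair ((b : ℝ) ^ q * z) - (b : ℝ) ^ q * z) / (b : ℝ) ^ q := by
    unfold fl
    field_simp
  rw [h2, abs_div, abs_of_pos (show (0:ℝ) < (b : ℝ) ^ q by positivity)]
  gcongr

include hb4 in
lemma fl_hasDerivAt (q : ℕ) (z : ℝ) : HasDerivAt (fl b q) (den ((b : ℝ) ^ q * z)) z := by
  have h0 : (0 : ℝ) < b := by
    have : 0 < b := by omega
    exact_mod_cast this
  have h1 : HasDerivAt (fun z : ℝ => (b : ℝ) ^ q * z) ((b : ℝ) ^ q) z := by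
    simpa using (hasDerivAt_id z).const_mul ((b : ℝ) ^ q)
  have h2 := ((stair_hasDerivAt ((b : ℝ) ^ q * z)).comp z h1).div_const ((b : ℝ) ^ q)
  have h3 : den ((b : ℝ) ^ q * z) * (b : ℝ) ^ q / (b : ℝ) ^ q = den ((b : ℝ) ^ q * z) := by
    field_simp
  rw [h3] at h2
  exact h2

lemma ramp_hasDerivAt' (q : ℕ) (z : ℝ) :
    HasDerivAt (fun z : ℝ => ramp ((b : ℝ) ^ q * z)) (den1 ((b : ℝ) ^ q * z) * (b : ℝ) ^ q) z := by
  have h1 : HasDerivAt (fun z : ℝ => (b : ℝ) ^ q * z) ((b : ℝ) ^ q) z := by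
    simpa using (hasDerivAt_id z).const_mul ((b : ℝ) ^ q)
  exact (ramp_hasDerivAt ((b : ℝ) ^ q * z)).comp z h1

include hb4 in
lemma leakTerm_hasDerivAt (τ : ℕ) (z : ℝ) :
    HasDerivAt (leakTerm b M τ) (leakTerm' b M τ z) z := by
  have h1 := (ramp_hasDerivAt' (b := b) (2 * τ) z).sub (ramp_hasDerivAt' (b := b) (2 * τ - 1) z)
  have h2 : HasDerivAt (fun z => ((b : ℝ) ^ (3 + 2 * τ))⁻¹ *
      ∑ o ∈ range (τ / 8), (fl b (2 * τ + M * o) z - fl b (2 * τ + M * o - 1) z))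
      (((b : ℝ) ^ (3 + 2 * τ))⁻¹ *
      ∑ o ∈ range (τ / 8), (den ((b : ℝ) ^ (2 * τ + M * o) * z)
        - den ((b : ℝ) ^ (2 * τ + M * o - 1) * z))) z := by
    apply HasDerivAt.const_mul
    apply HasDerivAt.fun_sum
    intro o _
    exact (fl_hasDerivAt hb4 _ z).sub (fl_hasDerivAt hb4 _ z)
  exact h1.mul h2

lemma leakTerm'_cont (τ : ℕ) : Continuous (leakTerm' b M τ) := by
  have c1 := den_cont
  have c2 := den1_cont
  have c3 : Continuous ramp := continuous_iff_continuousAt.2 fun u => (ramp_hasDerivAt u).continuousAt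
  have c4 : Continuous stair :=
    continuous_iff_continuousAt.2 fun u => (stair_hasDerivAt u).continuousAt
  unfold leakTerm' fl
  fun_prop

include hb4 in
lemma sum_fl_bound (τ : ℕ) (z : ℝ) :
    |∑ o ∈ range (τ / 8), (fl b (2 * τ + M * o) z - fl b (2 * τ + M * o - 1) z)|
      ≤ τ * (1 / (b : ℝ) ^ (2 * τ - 1)) := by
  have h4 : (4 : ℝ) ≤ b := by exact_mod_cast hb4
  have hterm : ∀ o ∈ range (τ / 8), |fl b (2 * τ + M * o) z - fl b (2 * τ + M * o - 1) z|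
      ≤ 2 * (1 / (b : ℝ) ^ (2 * τ - 1)) := by
    intro o _
    have h1 := fl_sub_self hb4 (2 * τ + M * o) z
    have h2 := fl_sub_self hb4 (2 * τ + M * o - 1) z
    have h3 : 1 / (b : ℝ) ^ (2 * τ + M * o) ≤ 1 / (b : ℝ) ^ (2 * τ - 1) := by
      apply one_div_le_one_div_of_le (by positivity)
      apply pow_le_pow_right₀ (by linarith)
      omega
    have h5 : 1 / (b : ℝ) ^ (2 * τ + M * o - 1) ≤ 1 / (b : ℝ) ^ (2 * τ - 1) := by
      apply one_div_le_one_div_of_le (by positivity)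
      apply pow_le_pow_right₀ (by linarith)
      omega
    have h6 : fl b (2 * τ + M * o) z - fl b (2 * τ + M * o - 1) z
      = (fl b (2 * τ + M * o) z - z) - (fl b (2 * τ + M * o - 1) z - z) := by ring
    rw [h6]
    refine (abs_sub _ _).trans ?_
    linarith
  refine (Finset.abs_sum_le_sum_abs _ _).trans ?_
  refine (Finset.sum_le_sum hterm).trans ?_
  rw [Finset.sum_const, card_range, nsmul_eq_mul, ← mul_assoc]
  apply mul_le_mul_of_nonneg_right _ (by positivity)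
  have : (τ / 8) * 2 ≤ τ := by omega
  exact_mod_cast this

lemma sum_den_bound (τ : ℕ) (z : ℝ) :
    |∑ o ∈ range (τ / 8), (den ((b : ℝ) ^ (2 * τ + M * o) * z)
        - den ((b : ℝ) ^ (2 * τ + M * o - 1) * z))|
      ≤ τ * Real.pi := by
  refine (Finset.abs_sum_le_sum_abs _ _).trans ?_
  have hterm : ∀ o ∈ range (τ / 8), |den ((b : ℝ) ^ (2 * τ + M * o) * z)
        - den ((b : ℝ) ^ (2 * τ + M * o - 1) * z)| ≤ Real.pi := by
    intro o _
    have h1 := den_nonneg ((b : ℝ) ^ (2 * τ + M * o) * z)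
    have h2 := den_le ((b : ℝ) ^ (2 * τ + M * o) * z)
    have h3 := den_nonneg ((b : ℝ) ^ (2 * τ + M * o - 1) * z)
    have h5 := den_le ((b : ℝ) ^ (2 * τ + M * o - 1) * z)
    rw [abs_le]
    constructor <;> linarith
  refine (Finset.sum_le_sum hterm).trans ?_
  rw [Finset.sum_const, card_range, nsmul_eq_mul]
  apply mul_le_mul_of_nonneg_right _ Real.pi_pos.le
  have : (τ / 8) ≤ τ := by omega
  exact_mod_cast this

lemma ramp_diff_bound (x y : ℝ) : |ramp x - ramp y| ≤ 1 := by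
  have h1 := ramp_bounds x
  have h2 := ramp_bounds y
  rw [abs_le]; constructor <;> linarith [h1.1, h1.2, h2.1, h2.2]

include hb4 in
lemma inv_pow_le (τ : ℕ) : ((b : ℝ) ^ (3 + 2 * τ))⁻¹ ≤ (1 / 2) ^ τ / 64 := by
  have h4 : (4 : ℝ) ≤ b := by exact_mod_cast hb4
  have h1 : (64 : ℝ) * 2 ^ τ ≤ (b : ℝ) ^ (3 + 2 * τ) := by
    rw [pow_add]
    have e1 : (64 : ℝ) ≤ (b : ℝ) ^ 3 := by
      calc (64 : ℝ) = 4 ^ 3 := by norm_num
        _ ≤ (b : ℝ) ^ 3 := by gcongr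
    have e2 : (2 : ℝ) ^ τ ≤ (b : ℝ) ^ (2 * τ) := by
      calc (2 : ℝ) ^ τ ≤ (b : ℝ) ^ τ := by gcongr; linarith
        _ ≤ (b : ℝ) ^ (2 * τ) := pow_le_pow_right₀ (by linarith) (by omega)
    exact mul_le_mul e1 e2 (by positivity) (by positivity)
  have h2 : ((b : ℝ) ^ (3 + 2 * τ))⁻¹ ≤ (64 * 2 ^ τ)⁻¹ := inv_anti₀ (by positivity) h1
  refine h2.trans (le_of_eq ?_)
  rw [mul_inv, one_div, inv_pow]; ring

include hb4 in
lemma leakTerm_bound (τ : ℕ) (z : ℝ) : ‖leakTerm b M τ z‖ ≤ (τ : ℝ) ^ 1 * (1 / 2) ^ τ := by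
  have h4 : (4 : ℝ) ≤ b := by exact_mod_cast hb4
  unfold leakTerm
  rw [Real.norm_eq_abs, abs_mul, abs_mul, abs_of_pos (show (0:ℝ) < ((b : ℝ) ^ (3 + 2 * τ))⁻¹ by positivity)]
  have h1 := ramp_diff_bound ((b : ℝ) ^ (2 * τ) * z) ((b : ℝ) ^ (2 * τ - 1) * z)
  have h2 := inv_pow_le hb4 τ
  have h3 := sum_fl_bound (M := M) hb4 τ z
  have h5 : 1 / (b : ℝ) ^ (2 * τ - 1) ≤ 1 := by
    rw [div_le_one (by positivity)]
    exact one_le_pow₀ (by linarith)
  have h6 : |∑ o ∈ range (τ / 8), (fl b (2 * τ + M * o) z - fl b (2 * τ + M * o - 1) z)| ≤ τ := by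
    refine h3.trans ?_
    nlinarith [show (0:ℝ) ≤ (τ:ℝ) by positivity]
  calc _ ≤ 1 * (((1 / 2) ^ τ / 64) * (τ : ℝ)) := by gcongr
    _ ≤ (τ : ℝ) ^ 1 * (1 / 2) ^ τ := by
      have : (0:ℝ) ≤ (τ : ℝ) * (1 / 2) ^ τ := by positivity
      rw [pow_one]; linarith

include hb4 in
lemma leakTerm'_bound (τ : ℕ) (z : ℝ) : ‖leakTerm' b M τ z‖ ≤ (τ : ℝ) ^ 1 * (1 / 2) ^ τ := by
  have h4 : (4 : ℝ) ≤ b := by exact_mod_cast hb4
  have hb0 : (0 : ℝ) < b := by linarith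
  have hpi := Real.pi_lt_four
  have hpi0 := Real.pi_pos
  unfold leakTerm'
  rcases Nat.eq_zero_or_pos τ with rfl | hτ
  · simp
  set S1 := ∑ o ∈ range (τ / 8), (fl b (2 * τ + M * o) z - fl b (2 * τ + M * o - 1) z) with hS1
  set S2 := ∑ o ∈ range (τ / 8), (den ((b : ℝ) ^ (2 * τ + M * o) * z)
        - den ((b : ℝ) ^ (2 * τ + M * o - 1) * z)) with hS2
  have h1 := ramp_diff_bound ((b : ℝ) ^ (2 * τ) * z) ((b : ℝ) ^ (2 * τ - 1) * z)
  have h2 := inv_pow_le hb4 τ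
  have h3 : |S1| ≤ τ * (1 / (b : ℝ) ^ (2 * τ - 1)) := sum_fl_bound (M := M) hb4 τ z
  have h5 : |S2| ≤ τ * Real.pi := sum_den_bound (M := M) τ z
  have hd : |den1 ((b : ℝ) ^ (2 * τ) * z) * (b : ℝ) ^ (2 * τ)
      - den1 ((b : ℝ) ^ (2 * τ - 1) * z) * (b : ℝ) ^ (2 * τ - 1)| ≤ 4 * (b : ℝ) ^ (2 * τ) := by
    have a1 := den1_nonneg ((b : ℝ) ^ (2 * τ) * z)
    have a2 := den1_le ((b : ℝ) ^ (2 * τ) * z)
    have a3 := den1_nonneg ((b : ℝ) ^ (2 * τ - 1) * z)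
    have a4 := den1_le ((b : ℝ) ^ (2 * τ - 1) * z)
    have a5 : (b : ℝ) ^ (2 * τ - 1) ≤ (b : ℝ) ^ (2 * τ) :=
      pow_le_pow_right₀ (by linarith) (by omega)
    have a6 : (0:ℝ) < (b : ℝ) ^ (2 * τ - 1) := by positivity
    have a7 : (0:ℝ) < (b : ℝ) ^ (2 * τ) := by positivity
    rw [abs_le]
    constructor
    · nlinarith [mul_nonneg a1 a7.le, mul_nonneg a3 a6.le]
    · nlinarith [mul_nonneg a1 a7.le, mul_nonneg a3 a6.le]
  have hpow : (b : ℝ) ^ (2 * τ) = b * (b : ℝ) ^ (2 * τ - 1) := by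
    rw [← pow_succ']; congr 1; omega
  have hpow3 : (b : ℝ) ^ (3 + 2 * τ) = b * (b : ℝ) ^ (2 + 2 * τ) := by
    rw [← pow_succ']; congr 1; omega
  have hinv2 : ((b : ℝ) ^ (2 + 2 * τ))⁻¹ ≤ (1 / 2) ^ τ / 16 := by
    have h1 : (16 : ℝ) * 2 ^ τ ≤ (b : ℝ) ^ (2 + 2 * τ) := by
      rw [pow_add]
      have e1 : (16 : ℝ) ≤ (b : ℝ) ^ 2 := by
        calc (16 : ℝ) = 4 ^ 2 := by norm_num
          _ ≤ (b : ℝ) ^ 2 := by gcongr
      have e2 : (2 : ℝ) ^ τ ≤ (b : ℝ) ^ (2 * τ) := by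
        calc (2 : ℝ) ^ τ ≤ (b : ℝ) ^ τ := by gcongr; linarith
          _ ≤ (b : ℝ) ^ (2 * τ) := pow_le_pow_right₀ (by linarith) (by omega)
      exact mul_le_mul e1 e2 (by positivity) (by positivity)
    have h2 : ((b : ℝ) ^ (2 + 2 * τ))⁻¹ ≤ (16 * 2 ^ τ)⁻¹ := inv_anti₀ (by positivity) h1
    refine h2.trans (le_of_eq ?_)
    rw [mul_inv, one_div, inv_pow]; ring
  have hI : (0:ℝ) < ((b : ℝ) ^ (3 + 2 * τ))⁻¹ := by positivity
  have t1 : |(den1 ((b : ℝ) ^ (2 * τ) * z) * (b : ℝ) ^ (2 * τ)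
      - den1 ((b : ℝ) ^ (2 * τ - 1) * z) * (b : ℝ) ^ (2 * τ - 1)) *
        (((b : ℝ) ^ (3 + 2 * τ))⁻¹ * S1)| ≤ 4 * ((τ : ℝ) * ((1 / 2) ^ τ / 16)) := by
    rw [abs_mul, abs_mul, abs_of_pos hI]
    calc _ ≤ (4 * (b : ℝ) ^ (2 * τ)) *
          (((b : ℝ) ^ (3 + 2 * τ))⁻¹ * (τ * (1 / (b : ℝ) ^ (2 * τ - 1)))) := by gcongr
      _ = 4 * ((τ : ℝ) * ((b : ℝ) ^ (2 + 2 * τ))⁻¹) := by
        rw [hpow, hpow3]; field_simp
      _ ≤ _ := by gcongr
  have t2 : |(ramp ((b : ℝ) ^ (2 * τ) * z) - ramp ((b : ℝ) ^ (2 * τ - 1) * z)) *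
    (((b : ℝ) ^ (3 + 2 * τ))⁻¹ * S2)| ≤ (((1 / 2) ^ τ / 64) * (τ * 4)) := by
    rw [abs_mul, abs_mul, abs_of_pos hI]
    calc _ ≤ 1 * (((1 / 2) ^ τ / 64) * (τ * Real.pi)) := by gcongr
      _ ≤ _ := by rw [one_mul]; gcongr
  rw [Real.norm_eq_abs]
  refine (abs_add_le _ _).trans ?_
  have : (0:ℝ) ≤ (τ : ℝ) * (1 / 2) ^ τ := by positivity
  rw [pow_one]
  linarith

lemma bound_summable : Summable (fun τ : ℕ => (τ : ℝ) ^ 1 * (1 / 2 : ℝ) ^ τ) :=
  summable_pow_mul_geometric_of_norm_lt_one 1 (by rw [Real.norm_eq_abs, abs_of_pos] <;> norm_num)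

include hb4 in
lemma leak_hasDerivAt (z : ℝ) : HasDerivAt (leak b M) (leak' b M z) z := by
  refine hasDerivAt_tsum (g := leakTerm b M) (g' := leakTerm' b M) bound_summable
    (fun n y => leakTerm_hasDerivAt hb4 n y) (fun n y => leakTerm'_bound hb4 n y) (y₀ := 0) ?_ z
  exact Summable.of_norm_bounded bound_summable (fun n => leakTerm_bound hb4 n 0)

include hb4 in
lemma leak'_cont : Continuous (leak' b M) :=
  continuous_tsum leakTerm'_cont bound_summable (fun n y => leakTerm'_bound hb4 n y)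

include hb4 in
lemma leak_contDiff : ContDiff ℝ 1 (leak b M) := by
  rw [contDiff_one_iff_deriv]
  refine ⟨fun z => (leak_hasDerivAt hb4 z).differentiableAt, ?_⟩
  have : deriv (leak b M) = leak' b M := funext fun z => (leak_hasDerivAt hb4 z).deriv
  rw [this]
  exact leak'_cont hb4

end leak

section eval

variable {b N M : ℕ} (hb : 4 * (N + 1) ≤ b) {u : ℕ → ℕ} (hu : ∀ q, u q ≤ N)

include hb hu in
lemma leakTerm'_val (τ : ℕ) : leakTerm' b M τ (val b u) = 0 := by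
  unfold leakTerm'
  simp only [den_mul_val hb hu, den1_mul_val hb hu]
  simp

include hb hu in
lemma leak'_val : leak' b M (val b u) = 0 := by
  unfold leak'
  simp only [leakTerm'_val hb hu, tsum_zero]

include hb hu in
lemma leak_hasDerivAt_val : HasDerivAt (leak b M) 0 (val b u) := by
  have := leak_hasDerivAt (b := b) (M := M) (by omega) (val b u)
  rwa [leak'_val hb hu] at this

include hb hu in
lemma fl_val (q : ℕ) : fl b q (val b u) = ∑ p ∈ range (q + 1), (u p : ℝ) / (b : ℝ) ^ p := by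
  unfold fl
  rw [stair_mul_val hb hu, pre_div hb]

include hb hu in
lemma fl_sub_val {q : ℕ} (hq : 1 ≤ q) :
    fl b q (val b u) - fl b (q - 1) (val b u) = (u q : ℝ) / (b : ℝ) ^ q := by
  rw [fl_val hb hu, fl_val hb hu, Nat.sub_add_cancel hq, Finset.sum_range_succ]
  ring

include hb hu in
lemma leakTerm_val_zero {τ : ℕ} (h : ¬ (u (2 * τ) ≠ 0 ∧ ∀ p, p < 2 * τ → u p = 0)) :
    leakTerm b M τ (val b u) = 0 := by
  unfold leakTerm
  rcases Nat.eq_zero_or_pos τ with rfl | hτ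
  · simp
  by_cases h1 : ∀ p, p < 2 * τ → u p = 0
  · have h2 : u (2 * τ) = 0 := by
      by_contra h2; exact h ⟨h2, h1⟩
    rw [ramp_mul_val_zero hb hu (q := 2 * τ), ramp_mul_val_zero hb hu (q := 2 * τ - 1)]
    · simp
    · intro p hp; exact h1 p (by omega)
    · intro p hp
      rcases Nat.lt_or_ge p (2 * τ) with h3 | h3
      · exact h1 p h3
      · rw [show p = 2 * τ by omega]; exact h2
  · push Not at h1
    obtain ⟨p, hp, hp'⟩ := h1
    rw [ramp_mul_val_one hb hu (q := 2 * τ) (p := p) (by omega) hp',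
      ramp_mul_val_one hb hu (q := 2 * τ - 1) (p := p) (by omega) hp']
    simp

include hb hu in
lemma leakTerm_val {τ : ℕ} (hτ : 1 ≤ τ) (h1 : u (2 * τ) ≠ 0) (h2 : ∀ p, p < 2 * τ → u p = 0) :
    leakTerm b M τ (val b u) =
      ∑ o ∈ range (τ / 8), (u (2 * τ + M * o) : ℝ) / (b : ℝ) ^ (3 + 4 * τ + M * o) := by
  have hb0 := b_pos hb
  unfold leakTerm
  rw [ramp_mul_val_one hb hu (q := 2 * τ) (p := 2 * τ) le_rfl h1,
    ramp_mul_val_zero hb hu (q := 2 * τ - 1) (fun p hp => h2 p (by omega)), sub_zero, one_mul,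
    Finset.mul_sum]
  refine Finset.sum_congr rfl fun o _ => ?_
  rw [fl_sub_val hb hu (by omega)]
  rw [show 3 + 4 * τ + M * o = (3 + 2 * τ) + (2 * τ + M * o) by ring, pow_add]
  field_simp
  ring

include hb hu in
/-- the leak function at a digit point with no leading exponent of the form `2τ`, `τ ≥ 1` -/
lemma leak_val_zero (h : ∀ τ, 1 ≤ τ → ¬ (u (2 * τ) ≠ 0 ∧ ∀ p, p < 2 * τ → u p = 0)) :
    leak b M (val b u) = 0 := by
  unfold leak
  have : ∀ τ, leakTerm b M τ (val b u) = 0 := by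
    intro τ
    rcases Nat.eq_zero_or_pos τ with rfl | hτ
    · simp [leakTerm]
    · exact leakTerm_val_zero hb hu (h τ hτ)
  simp only [this, tsum_zero]

include hb hu in
/-- the leak function at a digit point with leading exponent `2τ` -/
lemma leak_val {τ : ℕ} (hτ : 1 ≤ τ) (h1 : u (2 * τ) ≠ 0) (h2 : ∀ p, p < 2 * τ → u p = 0) :
    leak b M (val b u) =
      ∑ o ∈ range (τ / 8), (u (2 * τ + M * o) : ℝ) / (b : ℝ) ^ (3 + 4 * τ + M * o) := by
  unfold leak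
  rw [tsum_eq_single τ, leakTerm_val hb hu hτ h1 h2]
  intro σ hσ
  rcases Nat.eq_zero_or_pos σ with rfl | hσ0
  · simp [leakTerm]
  apply leakTerm_val_zero hb hu
  rintro ⟨h3, h4⟩
  rcases lt_trichotomy σ τ with h5 | h5 | h5
  · exact h3 (h2 _ (by omega))
  · exact hσ h5
  · exact h1 (h4 _ (by omega))

end eval

end Pool.Agent.PlanarGap
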