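import Mathlib
import Pool.Agent.MP_b109da_an.Leak

/-! Digit arrays of symbolic sequences. -/

namespace Pool.Agent.PlanarGap

open Finset

/-- symbols: a type (which coordinate is strongly expanded) and a digit -/
abbrev Sym (N : ℕ) := Fin 2 × Fin N

/-- symbol sequences -/
abbrev Sq (N : ℕ) := ℕ → Sym N

/-- the shift -/
def sh {N : ℕ} (ω : Sq N) : Sq N := fun n => ω (n + 1)

@[simp] lemma sh_apply {N : ℕ} (ω : Sq N) (n : ℕ) : sh ω n = ω (n + 1) := rfl

lemma sh_iterate {N : ℕ} (ω : Sq N) (n i : ℕ) : (sh^[n] ω) i = ω (i + n) := by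
  induction n generalizing ω with
  | zero => rfl
  | succ n ih => rw [Function.iterate_succ_apply, ih, sh_apply]; congr 1

lemma fin2_ne {t e : Fin 2} : t ≠ e ↔ t = e + 1 := by revert t e; decide

lemma fin2_add (e : Fin 2) : e + 1 + 1 = e := by revert e; decide

lemma fin2_add_ne (e : Fin 2) : e + 1 ≠ e := by revert e; decide

/-- contraction exponent in coordinate `e` of a symbol of type `t` -/
def wt (M : ℕ) (e t : Fin 2) : ℕ := if t = e then M else 2

/-- transport of a source array along the sequence -/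
def tr {N : ℕ} (M : ℕ) (c : Sq N → ℕ → ℕ) (e : Fin 2) (q : ℕ) (ω : Sq N) : ℕ :=
  c ω q + if _ : 0 < wt M e (ω 0).1 ∧ wt M e (ω 0).1 ≤ q then
    tr M c e (q - wt M e (ω 0).1) (sh ω) else 0
termination_by q
decreasing_by omega

section tr

variable {N M : ℕ} {c : Sq N → ℕ → ℕ} {e : Fin 2} {q : ℕ} {ω : Sq N}

lemma tr_lt (h : q < wt M e (ω 0).1) : tr M c e q ω = c ω q := by
  rw [tr, dif_neg (by omega), add_zero]

lemma wt_pos (hM : 0 < M) (e t : Fin 2) : 0 < wt M e t := by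
  unfold wt; split_ifs <;> omega

lemma tr_ge (hM : 0 < M) (h : wt M e (ω 0).1 ≤ q) :
    tr M c e q ω = c ω q + tr M c e (q - wt M e (ω 0).1) (sh ω) := by
  rw [tr, dif_pos ⟨wt_pos hM _ _, h⟩]

lemma tr_add (hM : 0 < M) (q : ℕ) :
    tr M c e (q + wt M e (ω 0).1) ω = c ω (q + wt M e (ω 0).1) + tr M c e q (sh ω) := by
  rw [tr_ge hM (by omega), Nat.add_sub_cancel]

end tr

/-- source of the direct digits -/
def dsrc {N : ℕ} (e : Fin 2) (ω : Sq N) (q : ℕ) : ℕ :=
  if (ω 0).1 = e ∧ q = 0 then ((ω 0).2 : ℕ) + 1 else 0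

/-- direct digits -/
def dir {N : ℕ} (M : ℕ) (e : Fin 2) (q : ℕ) (ω : Sq N) : ℕ := tr M (dsrc e) e q ω

/-- length of the initial run of type `e` (zero if infinite) -/
noncomputable def rl {N : ℕ} (e : Fin 2) (ω : Sq N) : ℕ := sInf {i | (ω i).1 ≠ e}

/-- source of the leaked digits -/
noncomputable def lsrc {N : ℕ} (M : ℕ) (e : Fin 2) (ω : Sq N) (q : ℕ) : ℕ :=
  if (ω 0).1 = e then 0 else
    ∑ o ∈ range (rl e (sh ω) / 8), if q = 3 + 4 * rl e (sh ω) + M * o then
      dir M (e + 1) (2 * rl e (sh ω) + M * o) (sh ω) else 0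

/-- leaked digits -/
noncomputable def lk {N : ℕ} (M : ℕ) (e : Fin 2) (q : ℕ) (ω : Sq N) : ℕ := tr M (lsrc M e) e q ω

/-- the digit array -/
noncomputable def arr {N : ℕ} (M : ℕ) (e : Fin 2) (ω : Sq N) (q : ℕ) : ℕ :=
  dir M e q ω + lk M e q ω

section basic

variable {N M : ℕ} {e : Fin 2} {q : ℕ} {ω : Sq N}

lemma wt_eq (h : (ω 0).1 = e) : wt M e (ω 0).1 = M := by unfold wt; rw [if_pos h]

lemma wt_ne (h : (ω 0).1 ≠ e) : wt M e (ω 0).1 = 2 := by unfold wt; rw [if_neg h]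

lemma dir_zero (hM : 0 < M) (h : (ω 0).1 = e) : dir M e 0 ω = ((ω 0).2 : ℕ) + 1 := by
  unfold dir
  rw [tr_lt (by rw [wt_eq h]; exact hM)]
  simp [dsrc, h]

lemma dir_eq_lt (h : (ω 0).1 = e) (h0 : 0 < q) (h1 : q < M) : dir M e q ω = 0 := by
  unfold dir
  rw [tr_lt (by rw [wt_eq h]; exact h1)]
  unfold dsrc
  rw [if_neg (by omega)]

lemma dir_eq_add (hM : 0 < M) (h : (ω 0).1 = e) (q : ℕ) : dir M e (q + M) ω = dir M e q (sh ω) := by
  have := tr_add (c := dsrc e) (e := e) (ω := ω) hM q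
  rw [wt_eq h] at this
  unfold dir
  rw [this]
  unfold dsrc
  rw [if_neg (by omega), zero_add]

lemma dir_ne_lt (h : (ω 0).1 ≠ e) (h1 : q < 2) : dir M e q ω = 0 := by
  unfold dir
  rw [tr_lt (by rw [wt_ne h]; exact h1)]
  unfold dsrc
  rw [if_neg (by tauto)]

lemma dir_ne_add (hM : 0 < M) (h : (ω 0).1 ≠ e) (q : ℕ) :
    dir M e (q + 2) ω = dir M e q (sh ω) := by
  have := tr_add (c := dsrc e) (e := e) (ω := ω) hM q
  rw [wt_ne h] at this
  unfold dir
  rw [this]
  unfold dsrc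
  rw [if_neg (by omega), zero_add]

lemma dir_le (hM : 0 < M) : dir M e q ω ≤ N := by
  induction q using Nat.strong_induction_on generalizing ω with
  | _ q ih =>
    by_cases h : (ω 0).1 = e
    · rcases Nat.eq_zero_or_pos q with rfl | h0
      · rw [dir_zero hM h]; exact (ω 0).2.isLt
      rcases Nat.lt_or_ge q M with h1 | h1
      · rw [dir_eq_lt h h0 h1]; exact Nat.zero_le _
      · obtain ⟨p, rfl⟩ := Nat.exists_eq_add_of_le' h1
        rw [dir_eq_add hM h]
        exact ih p (by omega)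
    · rcases Nat.lt_or_ge q 2 with h1 | h1
      · rw [dir_ne_lt h h1]; exact Nat.zero_le _
      · obtain ⟨p, rfl⟩ := Nat.exists_eq_add_of_le' h1
        rw [dir_ne_add hM h]
        exact ih p (by omega)

lemma dir_odd (hM : 0 < M) (hM2 : M % 2 = 0) (hq : q % 2 = 1) : dir M e q ω = 0 := by
  induction q using Nat.strong_induction_on generalizing ω with
  | _ q ih =>
    by_cases h : (ω 0).1 = e
    · rcases Nat.lt_or_ge q M with h1 | h1
      · rw [dir_eq_lt h (by omega) h1]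
      · obtain ⟨p, rfl⟩ := Nat.exists_eq_add_of_le' h1
        rw [dir_eq_add hM h]
        exact ih p (by omega) (by omega)
    · rcases Nat.lt_or_ge q 2 with h1 | h1
      · rw [dir_ne_lt h h1]
      · obtain ⟨p, rfl⟩ := Nat.exists_eq_add_of_le' h1
        rw [dir_ne_add hM h]
        exact ih p (by omega) (by omega)

lemma rl_spec {τ : ℕ} (hτ : 0 < τ) (h : rl e ω = τ) : (∀ i, i < τ → (ω i).1 = e) ∧ (ω τ).1 ≠ e := by
  have hne : {i | (ω i).1 ≠ e}.Nonempty := by
    by_contra hc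
    rw [Set.not_nonempty_iff_eq_empty] at hc
    unfold rl at h
    rw [hc, Nat.sInf_empty] at h
    omega
  constructor
  · intro i hi
    by_contra hc
    have : rl e ω ≤ i := Nat.sInf_le hc
    omega
  · have := Nat.sInf_mem hne
    rw [← h]
    exact this

lemma rl_eq {τ : ℕ} (h1 : ∀ i, i < τ → (ω i).1 = e) (h2 : (ω τ).1 ≠ e) : rl e ω = τ := by
  apply le_antisymm
  · exact Nat.sInf_le h2
  · by_contra hc
    push Not at hc
    have hne : {i | (ω i).1 ≠ e}.Nonempty := ⟨τ, h2⟩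
    have := Nat.sInf_mem hne
    exact this (h1 _ hc)

lemma rl_zero_of_ne (h : (ω 0).1 ≠ e) : rl e ω = 0 := rl_eq (fun i hi => absurd hi (by omega)) h

lemma lsrc_eq (h : (ω 0).1 = e) : lsrc M e ω q = 0 := by unfold lsrc; rw [if_pos h]

lemma lsrc_ne_zero (h : lsrc M e ω q ≠ 0) :
    (ω 0).1 ≠ e ∧ ∃ o, o < rl e (sh ω) / 8 ∧ q = 3 + 4 * rl e (sh ω) + M * o := by
  unfold lsrc at h
  split_ifs at h with h1
  · exact absurd rfl h
  refine ⟨h1, ?_⟩
  obtain ⟨o, ho, hne⟩ := Finset.exists_ne_zero_of_sum_ne_zero h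
  refine ⟨o, by simpa using ho, ?_⟩
  by_contra hc
  rw [if_neg hc] at hne
  exact hne rfl

lemma lsrc_val (hM : 0 < M) (h : (ω 0).1 ≠ e) {o : ℕ} (ho : o < rl e (sh ω) / 8) :
    lsrc M e ω (3 + 4 * rl e (sh ω) + M * o) =
      dir M (e + 1) (2 * rl e (sh ω) + M * o) (sh ω) := by
  unfold lsrc
  rw [if_neg h, Finset.sum_eq_single o]
  · rw [if_pos rfl]
  · intro o' _ hne
    rw [if_neg]
    intro hc
    have : M * o = M * o' := by omega
    exact hne (Nat.eq_of_mul_eq_mul_left hM this.symm)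
  · intro hc; exact absurd (Finset.mem_range.2 ho) hc

lemma lsrc_le (hM : 0 < M) : lsrc M e ω q ≤ N := by
  by_cases h : lsrc M e ω q = 0
  · omega
  · obtain ⟨h1, o, ho, rfl⟩ := lsrc_ne_zero h
    rw [lsrc_val hM h1 ho]
    exact dir_le hM

lemma lsrc_even (hM2 : M % 2 = 0) (hq : q % 2 = 0) : lsrc M e ω q = 0 := by
  by_contra h
  obtain ⟨h1, o, ho, h2⟩ := lsrc_ne_zero h
  have : (M * o) % 2 = 0 := by rw [Nat.mul_mod, hM2, zero_mul]; rfl
  omega

lemma lsrc_small (hq : q < 35) : lsrc M e ω q = 0 := by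
  by_contra h
  obtain ⟨h1, o, ho, h2⟩ := lsrc_ne_zero h
  have : 8 ≤ rl e (sh ω) := by omega
  omega

lemma lk_eq_lt (h : (ω 0).1 = e) (h1 : q < M) : lk M e q ω = 0 := by
  unfold lk
  rw [tr_lt (by rw [wt_eq h]; exact h1), lsrc_eq h]

lemma lk_eq_add (hM : 0 < M) (h : (ω 0).1 = e) (q : ℕ) : lk M e (q + M) ω = lk M e q (sh ω) := by
  have := tr_add (c := lsrc M e) (e := e) (ω := ω) hM q
  rw [wt_eq h] at this
  unfold lk
  rw [this, lsrc_eq h, zero_add]

lemma lk_ne_lt (h : (ω 0).1 ≠ e) (h1 : q < 2) : lk M e q ω = 0 := by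
  unfold lk
  rw [tr_lt (by rw [wt_ne h]; exact h1), lsrc_small (by omega)]

lemma lk_ne_add (hM : 0 < M) (h : (ω 0).1 ≠ e) (q : ℕ) :
    lk M e (q + 2) ω = lsrc M e ω (q + 2) + lk M e q (sh ω) := by
  have := tr_add (c := lsrc M e) (e := e) (ω := ω) hM q
  rw [wt_ne h] at this
  unfold lk
  rw [this]

lemma lk_even (hM : 0 < M) (hM2 : M % 2 = 0) (hq : q % 2 = 0) : lk M e q ω = 0 := by
  induction q using Nat.strong_induction_on generalizing ω with
  | _ q ih =>
    by_cases h : (ω 0).1 = e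
    · rcases Nat.lt_or_ge q M with h1 | h1
      · rw [lk_eq_lt h h1]
      · obtain ⟨p, rfl⟩ := Nat.exists_eq_add_of_le' h1
        rw [lk_eq_add hM h]
        exact ih p (by omega) (by omega)
    · rcases Nat.lt_or_ge q 2 with h1 | h1
      · rw [lk_ne_lt h h1]
      · obtain ⟨p, rfl⟩ := Nat.exists_eq_add_of_le' h1
        rw [lk_ne_add hM h, lsrc_even hM2 hq, zero_add]
        exact ih p (by omega) (by omega)

/-- no leaked digits before the end of an initial run of type `e` -/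
lemma lk_run (hM : 0 < M) {τ : ℕ} (h : ∀ i, i < τ → (ω i).1 = e) (hq : q < M * τ) :
    lk M e q ω = 0 := by
  induction τ generalizing ω q with
  | zero => omega
  | succ τ ih =>
    have h0 : (ω 0).1 = e := h 0 (by omega)
    rcases Nat.lt_or_ge q M with h1 | h1
    · exact lk_eq_lt h0 h1
    · obtain ⟨p, rfl⟩ := Nat.exists_eq_add_of_le' h1
      rw [lk_eq_add hM h0]
      apply ih (fun i hi => h (i + 1) (by omega))
      rw [Nat.mul_succ] at hq
      omega

/-- no collisions between new leaked digits and older ones -/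
lemma no_coll (hM8 : 8 ≤ M) (h : lsrc M e ω (q + 2) ≠ 0) : lk M e q (sh ω) = 0 := by
  obtain ⟨h1, o, ho, h2⟩ := lsrc_ne_zero h
  set τ := rl e (sh ω) with hτ
  have hτ8 : 8 ≤ τ := by omega
  have h3 := (rl_spec (by omega) hτ.symm).1
  apply lk_run (by omega) h3
  have h4 : M * (o + 1) ≤ M * (τ / 8) := Nat.mul_le_mul_left M (by omega)
  have h5 : M * (8 * (τ / 8)) ≤ M * τ := Nat.mul_le_mul_left M (by omega)
  have h6 : 8 * (M * (τ / 8)) = M * (8 * (τ / 8)) := by ring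
  have h7 : 8 * τ ≤ M * τ := Nat.mul_le_mul_right τ hM8
  rw [Nat.mul_succ] at h4
  omega

lemma lk_le (hM8 : 8 ≤ M) : lk M e q ω ≤ N := by
  have hM : 0 < M := by omega
  induction q using Nat.strong_induction_on generalizing ω with
  | _ q ih =>
    by_cases h : (ω 0).1 = e
    · rcases Nat.lt_or_ge q M with h1 | h1
      · rw [lk_eq_lt h h1]; exact Nat.zero_le _
      · obtain ⟨p, rfl⟩ := Nat.exists_eq_add_of_le' h1
        rw [lk_eq_add hM h]
        exact ih p (by omega)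
    · rcases Nat.lt_or_ge q 2 with h1 | h1
      · rw [lk_ne_lt h h1]; exact Nat.zero_le _
      · obtain ⟨p, rfl⟩ := Nat.exists_eq_add_of_le' h1
        rw [lk_ne_add hM h]
        by_cases h2 : lsrc M e ω (p + 2) = 0
        · rw [h2, zero_add]; exact ih p (by omega)
        · rw [no_coll hM8 h2, add_zero]; exact lsrc_le hM

lemma arr_le (hM8 : 8 ≤ M) (hM2 : M % 2 = 0) : arr M e ω q ≤ N := by
  unfold arr
  rcases Nat.mod_two_eq_zero_or_one q with h | h
  · rw [lk_even (by omega) hM2 h, add_zero]; exact dir_le (by omega)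
  · rw [dir_odd (by omega) hM2 h, zero_add]; exact lk_le hM8

lemma arr_eq_zero (hM : 0 < M) (h : (ω 0).1 = e) : arr M e ω 0 = ((ω 0).2 : ℕ) + 1 := by
  unfold arr; rw [dir_zero hM h, lk_eq_lt h hM, add_zero]

lemma arr_eq_lt (h : (ω 0).1 = e) (h0 : 0 < q) (h1 : q < M) : arr M e ω q = 0 := by
  unfold arr; rw [dir_eq_lt h h0 h1, lk_eq_lt h h1]

lemma arr_eq_add (hM : 0 < M) (h : (ω 0).1 = e) (q : ℕ) :
    arr M e ω (q + M) = arr M e (sh ω) q := by
  unfold arr; rw [dir_eq_add hM h, lk_eq_add hM h]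

lemma arr_ne_lt (h : (ω 0).1 ≠ e) (h1 : q < 2) : arr M e ω q = 0 := by
  unfold arr; rw [dir_ne_lt h h1, lk_ne_lt h h1]

lemma arr_ne_add (hM : 0 < M) (h : (ω 0).1 ≠ e) (q : ℕ) :
    arr M e ω (q + 2) = arr M e (sh ω) q + lsrc M e ω (q + 2) := by
  unfold arr; rw [dir_ne_add hM h, lk_ne_add hM h]; ring

/-- run of symbols of the other type: nothing visible before `2τ` -/
lemma dir_run_ne_lt (hM : 0 < M) {τ : ℕ} (h : ∀ i, i < τ → (ω i).1 ≠ e) (hq : q < 2 * τ) :
    dir M e q ω = 0 := by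
  induction τ generalizing ω q with
  | zero => omega
  | succ τ ih =>
    have h0 : (ω 0).1 ≠ e := h 0 (by omega)
    rcases Nat.lt_or_ge q 2 with h1 | h1
    · exact dir_ne_lt h0 h1
    · obtain ⟨p, rfl⟩ := Nat.exists_eq_add_of_le' h1
      rw [dir_ne_add hM h0]
      exact ih (fun i hi => h (i + 1) (by omega)) (by omega)

lemma dir_run_ne (hM : 0 < M) {τ : ℕ} (h : ∀ i, i < τ → (ω i).1 ≠ e) (q : ℕ) :
    dir M e (2 * τ + q) ω = dir M e q (sh^[τ] ω) := by
  induction τ generalizing ω with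
  | zero => simp
  | succ τ ih =>
    have h0 : (ω 0).1 ≠ e := h 0 (by omega)
    rw [show 2 * (τ + 1) + q = (2 * τ + q) + 2 by ring, dir_ne_add hM h0,
      ih (ω := sh ω) (fun i hi => h (i + 1) (by omega)), Function.iterate_succ_apply]

lemma dir_run_eq (hM : 0 < M) {τ : ℕ} (h : ∀ i, i < τ → (ω i).1 = e) (q : ℕ) :
    dir M e (M * τ + q) ω = dir M e q (sh^[τ] ω) := by
  induction τ generalizing ω with
  | zero => simp
  | succ τ ih =>
    have h0 : (ω 0).1 = e := h 0 (by omega)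
    rw [show M * (τ + 1) + q = (M * τ + q) + M by ring, dir_eq_add hM h0,
      ih (ω := sh ω) (fun i hi => h (i + 1) (by omega)), Function.iterate_succ_apply]

lemma lk_run_ne_le (hM : 0 < M) {τ : ℕ} (h : ∀ i, i < τ → (ω i).1 ≠ e) (hq : q < 2 * τ + 1) :
    lk M e q ω = 0 := by
  induction τ generalizing ω q with
  | zero =>
    by_cases h0 : (ω 0).1 = e
    · exact lk_eq_lt h0 (by omega)
    · exact lk_ne_lt h0 (by omega)
  | succ τ ih =>
    have h0 : (ω 0).1 ≠ e := h 0 (by omega)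
    rcases Nat.lt_or_ge q 2 with h1 | h1
    · exact lk_ne_lt h0 h1
    · obtain ⟨p, rfl⟩ := Nat.exists_eq_add_of_le' h1
      rw [lk_ne_add hM h0, ih (ω := sh ω) (fun i hi => h (i + 1) (by omega)) (by omega), add_zero]
      by_cases hτ : τ = 0
      · apply lsrc_small; omega
      · have h2 : ((sh ω) 0).1 ≠ e := h 1 (by omega)
        unfold lsrc
        rw [rl_zero_of_ne h2]; simp

lemma arr_run_ne_lt (hM : 0 < M) {τ : ℕ} (h : ∀ i, i < τ → (ω i).1 ≠ e) (hq : q < 2 * τ) :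
    arr M e ω q = 0 := by
  unfold arr; rw [dir_run_ne_lt hM h hq, lk_run_ne_le hM h (by omega)]

lemma arr_run_ne_end (hM : 0 < M) {τ : ℕ} (h : ∀ i, i < τ → (ω i).1 ≠ e) (hτ : (ω τ).1 = e) :
    arr M e ω (2 * τ) ≠ 0 := by
  unfold arr
  have := dir_run_ne hM h 0
  rw [add_zero] at this
  rw [this, dir_zero hM (by rw [sh_iterate]; simpa using hτ)]
  omega

end basic

/-- coordinates of the coding map -/
noncomputable def Z {N : ℕ} (b M : ℕ) (e : Fin 2) (ω : Sq N) : ℝ := val b (arr M e ω)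

section Z

variable {N M b : ℕ}

lemma tsum_lsrc {e : Fin 2} {ω : Sq N} (h : (ω 0).1 ≠ e) :
    HasSum (fun q => (lsrc M e ω q : ℝ) / (b : ℝ) ^ q)
      (∑ o ∈ range (rl e (sh ω) / 8), (dir M (e + 1) (2 * rl e (sh ω) + M * o) (sh ω) : ℝ) /
        (b : ℝ) ^ (3 + 4 * rl e (sh ω) + M * o)) := by
  have h1 : ∀ q, (lsrc M e ω q : ℝ) / (b : ℝ) ^ q = ∑ o ∈ range (rl e (sh ω) / 8),
      (if q = 3 + 4 * rl e (sh ω) + M * o then
        (dir M (e + 1) (2 * rl e (sh ω) + M * o) (sh ω) : ℝ) /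
        (b : ℝ) ^ (3 + 4 * rl e (sh ω) + M * o) else 0) := by
    intro q
    unfold lsrc
    rw [if_neg h]
    push_cast
    rw [Finset.sum_div]
    refine Finset.sum_congr rfl fun o _ => ?_
    split_ifs with h2
    · rw [h2]
    · simp
  simp only [h1]
  apply hasSum_sum
  intro o _
  exact hasSum_ite_eq _ _

variable (hb : 4 * (N + 1) ≤ b) (hM8 : 8 ≤ M) (hM2 : M % 2 = 0)

include hb hM8 hM2

lemma Z_summable (e : Fin 2) (ω : Sq N) : Summable (fun q => (arr M e ω q : ℝ) / (b : ℝ) ^ q) :=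
  val_summable hb (fun _ => arr_le hM8 hM2)

lemma Z_eq {e : Fin 2} {ω : Sq N} (h : (ω 0).1 = e) :
    Z b M e ω = ((ω 0).2 : ℕ) + 1 + Z b M e (sh ω) / (b : ℝ) ^ M := by
  have hM : 0 < M := by omega
  unfold Z
  rw [val_split hb (fun q => arr_le (e := e) (ω := ω) hM8 hM2) M]
  congr 1
  · obtain ⟨m, rfl⟩ : ∃ m, M = m + 1 := ⟨M - 1, by omega⟩
    rw [Finset.sum_range_succ']
    rw [Finset.sum_eq_zero]
    · rw [arr_eq_zero hM h]; simp
    · intro i hi
      rw [arr_eq_lt h (by omega) (by simpa using hi)]; simp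
  · congr 2
    funext q
    exact arr_eq_add hM h q

lemma leak_Z {e : Fin 2} {ω : Sq N} :
    leak b M (Z b M (e + 1) (sh ω)) =
      ∑ o ∈ range (rl e (sh ω) / 8), (dir M (e + 1) (2 * rl e (sh ω) + M * o) (sh ω) : ℝ) /
        (b : ℝ) ^ (3 + 4 * rl e (sh ω) + M * o) := by
  have hM : 0 < M := by omega
  have hu : ∀ q, arr M (e + 1) (sh ω) q ≤ N := fun q => arr_le hM8 hM2
  unfold Z
  rcases Nat.eq_zero_or_pos (rl e (sh ω)) with h0 | h0
  · rw [h0]
    simp only [Nat.zero_div, Finset.range_zero, Finset.sum_empty]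
    apply leak_val_zero hb hu
    intro τ hτ
    by_cases h1 : ((sh ω) 0).1 = e
    · -- infinite run of type e
      have h2 : ∀ i, ((sh ω) i).1 ≠ e + 1 := by
        intro i
        have h3 : ((sh ω) i).1 = e := by
          by_contra hc
          have hne : {i | ((sh ω) i).1 ≠ e}.Nonempty := ⟨i, hc⟩
          have := Nat.sInf_mem hne
          unfold rl at h0
          rw [h0] at this
          exact this h1
        rw [h3]; exact (fin2_add_ne e).symm
      rintro ⟨h3, -⟩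
      exact h3 (arr_run_ne_lt (τ := τ + 1) hM (fun i _ => h2 i) (by omega))
    · rintro ⟨-, h3⟩
      have h4 := h3 0 (by omega)
      rw [arr_eq_zero hM (fin2_ne.1 h1)] at h4
      omega
  · obtain ⟨h1, h2⟩ := rl_spec h0 rfl
    have h3 : ∀ i, i < rl e (sh ω) → ((sh ω) i).1 ≠ e + 1 := by
      intro i hi
      rw [h1 i hi]; exact (fin2_add_ne e).symm
    have h4 : ((sh ω) (rl e (sh ω))).1 = e + 1 := fin2_ne.1 h2
    rw [leak_val hb hu (τ := rl e (sh ω)) h0 (arr_run_ne_end hM h3 h4)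
      (fun p hp => arr_run_ne_lt hM h3 hp)]
    refine Finset.sum_congr rfl fun o _ => ?_
    unfold arr
    rw [lk_even (e := e + 1) hM hM2 (q := 2 * rl e (sh ω) + M * o), add_zero]
    have : (M * o) % 2 = 0 := by rw [Nat.mul_mod, hM2, zero_mul]; rfl
    omega

lemma Z_ne {e : Fin 2} {ω : Sq N} (h : (ω 0).1 ≠ e) :
    Z b M e ω = Z b M e (sh ω) / (b : ℝ) ^ 2 + leak b M (Z b M (e + 1) (sh ω)) := by
  have hM : 0 < M := by omega
  have hb0 := b_pos hb
  rw [leak_Z hb hM8 hM2]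
  have h1 := (tsum_lsrc (M := M) h (b := b)).tsum_eq
  rw [← h1]
  have hs := (tsum_lsrc (M := M) h (b := b)).summable
  unfold Z
  rw [val_split hb (fun q => arr_le (e := e) (ω := ω) hM8 hM2) 2]
  have h2 : ∑ p ∈ range 2, (arr M e ω p : ℝ) / (b : ℝ) ^ p = 0 := by
    apply Finset.sum_eq_zero
    intro p hp
    rw [arr_ne_lt h (by simpa using hp)]; simp
  rw [h2, zero_add]
  have h3 := hs.sum_add_tsum_nat_add 2
  have h4 : ∑ p ∈ range 2, (lsrc M e ω p : ℝ) / (b : ℝ) ^ p = 0 := by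
    apply Finset.sum_eq_zero
    intro p hp
    have hp' : p < 2 := by simpa using hp
    rw [lsrc_small (by omega)]; simp
  rw [h4, zero_add] at h3
  rw [← h3]
  have h5 : Summable (fun q => (lsrc M e ω (q + 2) : ℝ) / (b : ℝ) ^ (q + 2)) :=
    (summable_nat_add_iff 2).2 hs
  unfold val
  rw [← tsum_div_const, ← tsum_div_const, ← Summable.tsum_add]
  · refine tsum_congr fun q => ?_
    show ((arr M e ω (q + 2) : ℕ) : ℝ) / (b : ℝ) ^ q / (b : ℝ) ^ 2 = _
    rw [arr_ne_add hM h]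
    push_cast
    rw [pow_add]
    field_simp
  · exact (Z_summable hb hM8 hM2 e (sh ω)).div_const _
  · exact h5

end Z

end Pool.Agent.PlanarGap
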