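import Mathlib
import Pool.Agent.MP_b109da_an.Arrays

/-! Dependence on initial segments, continuity and separation. -/

namespace Pool.Agent.PlanarGap

open Finset

section val2

variable {b N : ℕ} (hb : 4 * (N + 1) ≤ b) {u v : ℕ → ℕ} (hu : ∀ q, u q ≤ N) (hv : ∀ q, v q ≤ N)

include hb hu hv in
lemma val_diff {n : ℕ} (h : ∀ q, q < n → u q = v q) : |val b u - val b v| ≤ (N + 1) / (b : ℝ) ^ n := by
  have hb0 := b_pos hb
  rw [val_split hb hu n, val_split hb hv n]
  have h1 : ∑ p ∈ range n, (u p : ℝ) / (b : ℝ) ^ p = ∑ p ∈ range n, (v p : ℝ) / (b : ℝ) ^ p :=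
    Finset.sum_congr rfl fun p hp => by rw [h p (by simpa using hp)]
  rw [h1, add_sub_add_left_eq_sub, ← sub_div, abs_div, abs_of_pos (show (0:ℝ) < (b : ℝ) ^ n by positivity)]
  have a1 := val_nonneg (b := b) (u := fun p => u (p + n))
  have a2 := val_le hb (u := fun p => u (p + n)) (fun p => hu _)
  have a3 := val_nonneg (b := b) (u := fun p => v (p + n))
  have a4 := val_le hb (u := fun p => v (p + n)) (fun p => hv _)
  gcongr
  rw [abs_le]
  constructor <;> linarith

include hb hu hv in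
lemma val_sep {r : ℕ} (h : |val b u - val b v| < 1 / (2 * (b : ℝ) ^ r)) :
    ∀ q, q ≤ r → u q = v q := by
  have hb0 := b_pos hb
  by_contra hc
  push Not at hc
  classical
  have hex : ∃ q, q ≤ r ∧ u q ≠ v q := hc
  obtain ⟨hq1, hq2⟩ := Nat.find_spec hex
  set q := Nat.find hex with hq
  have hmin : ∀ p, p < q → u p = v p := by
    intro p hp
    by_contra hne
    exact Nat.find_min hex hp ⟨by omega, hne⟩
  have h1 : val b u - val b v = ((u q : ℝ) - v q) / (b : ℝ) ^ q +
      (val b (fun p => u (p + (q + 1))) - val b (fun p => v (p + (q + 1)))) / (b : ℝ) ^ (q + 1) := by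
    rw [val_split hb hu (q + 1), val_split hb hv (q + 1), Finset.sum_range_succ,
      Finset.sum_range_succ]
    have h1 : ∑ p ∈ range q, (u p : ℝ) / (b : ℝ) ^ p = ∑ p ∈ range q, (v p : ℝ) / (b : ℝ) ^ p :=
      Finset.sum_congr rfl fun p hp => by rw [hmin p (by simpa using hp)]
    rw [h1]; ring
  have a1 := val_nonneg (b := b) (u := fun p => u (p + (q + 1)))
  have a2 := val_le hb (u := fun p => u (p + (q + 1))) (fun p => hu _)
  have a3 := val_nonneg (b := b) (u := fun p => v (p + (q + 1)))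
  have a4 := val_le hb (u := fun p => v (p + (q + 1))) (fun p => hv _)
  have h2 : (1:ℝ) ≤ |(u q : ℝ) - v q| := by
    have : (1 : ℤ) ≤ |(u q : ℤ) - v q| := by
      apply Int.one_le_abs
      intro h0
      apply hq2
      omega
    exact_mod_cast this
  have h3 : |(val b (fun p => u (p + (q + 1))) - val b (fun p => v (p + (q + 1)))) /
      (b : ℝ) ^ (q + 1)| ≤ (1 / 4) / (b : ℝ) ^ q := by
    rw [abs_div, abs_of_pos (show (0:ℝ) < (b : ℝ) ^ (q + 1) by positivity)]
    have h4 : |val b (fun p => u (p + (q + 1))) - val b (fun p => v (p + (q + 1)))| ≤ N + 1 := by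
      rw [abs_le]; constructor <;> linarith
    rw [div_le_div_iff₀ (by positivity) (by positivity), pow_succ]
    have h5 : (N : ℝ) + 1 ≤ 1 / 4 * b := by linarith [b_ge hb]
    calc |val b (fun p => u (p + (q + 1))) - val b (fun p => v (p + (q + 1)))| * (b : ℝ) ^ q
        ≤ (1 / 4 * b) * (b : ℝ) ^ q := by gcongr; linarith
      _ = 1 / 4 * ((b : ℝ) ^ q * b) := by ring
  have h4 : 1 / (b : ℝ) ^ q ≤ |((u q : ℝ) - v q) / (b : ℝ) ^ q| := by
    rw [abs_div, abs_of_pos (show (0:ℝ) < (b : ℝ) ^ q by positivity)]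
    gcongr
  have h5 : |((u q : ℝ) - v q) / (b : ℝ) ^ q| ≤ |val b u - val b v| +
      |(val b (fun p => u (p + (q + 1))) - val b (fun p => v (p + (q + 1)))) /
      (b : ℝ) ^ (q + 1)| := by
    have : ((u q : ℝ) - v q) / (b : ℝ) ^ q = (val b u - val b v) -
      (val b (fun p => u (p + (q + 1))) - val b (fun p => v (p + (q + 1)))) / (b : ℝ) ^ (q + 1) := by
      rw [h1]; ring
    rw [this]
    exact abs_sub _ _
  have h6 : 1 / (2 * (b : ℝ) ^ r) ≤ 1 / (2 * (b : ℝ) ^ q) := by
    apply one_div_le_one_div_of_le (by positivity)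
    have : (b : ℝ) ^ q ≤ (b : ℝ) ^ r := pow_le_pow_right₀ (by linarith [b_ge4 hb]) hq1
    linarith
  have h7 : 1 / (2 * (b : ℝ) ^ q) = (1 / 2) * (1 / (b : ℝ) ^ q) := by
    field_simp
  have h8 : (1 / 4) / (b : ℝ) ^ q = (1 / 4) * (1 / (b : ℝ) ^ q) := by
    field_simp
  have h9 : 0 < 1 / (b : ℝ) ^ q := by positivity
  linarith

end val2

section congr

variable {N M : ℕ} {e : Fin 2} {q : ℕ} {ω ω' : Sq N}

lemma dir_congr (hM : 0 < M) (h : ∀ i, i ≤ q → ω i = ω' i) : dir M e q ω = dir M e q ω' := by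
  induction q using Nat.strong_induction_on generalizing ω ω' with
  | _ q ih =>
    have h0 : ω 0 = ω' 0 := h 0 (Nat.zero_le _)
    by_cases h1 : (ω 0).1 = e
    · have h1' : (ω' 0).1 = e := by rw [← h0]; exact h1
      rcases Nat.eq_zero_or_pos q with rfl | hq
      · rw [dir_zero hM h1, dir_zero hM h1', h0]
      rcases Nat.lt_or_ge q M with h2 | h2
      · rw [dir_eq_lt h1 hq h2, dir_eq_lt h1' hq h2]
      · obtain ⟨p, rfl⟩ := Nat.exists_eq_add_of_le' h2
        rw [dir_eq_add hM h1, dir_eq_add hM h1']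
        exact ih p (by omega) (fun i hi => h (i + 1) (by omega))
    · have h1' : (ω' 0).1 ≠ e := by rw [← h0]; exact h1
      rcases Nat.lt_or_ge q 2 with h2 | h2
      · rw [dir_ne_lt h1 h2, dir_ne_lt h1' h2]
      · obtain ⟨p, rfl⟩ := Nat.exists_eq_add_of_le' h2
        rw [dir_ne_add hM h1, dir_ne_add hM h1']
        exact ih p (by omega) (fun i hi => h (i + 1) (by omega))

lemma lsrc_congr_ne (hM : 0 < M) (h : ∀ i, i ≤ q → ω i = ω' i) (hne : lsrc M e ω q ≠ 0) :
    lsrc M e ω q = lsrc M e ω' q := by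
  obtain ⟨h1, o, ho, h2⟩ := lsrc_ne_zero hne
  have h1' : (ω' 0).1 ≠ e := by rw [← h 0 (Nat.zero_le _)]; exact h1
  set τ := rl e (sh ω) with hτ
  have hτ8 : 8 ≤ τ := by omega
  obtain ⟨h3, h4⟩ := rl_spec (by omega) hτ.symm
  have hτ' : rl e (sh ω') = τ := by
    apply rl_eq
    · intro i hi
      rw [sh_apply, ← h (i + 1) (by omega)]
      exact h3 i hi
    · rw [sh_apply, ← h (τ + 1) (by omega)]
      exact h4
  rw [h2]
  have e1 := lsrc_val (M := M) hM h1 (o := o) (by rw [← hτ]; exact ho)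
  have e2 := lsrc_val (M := M) hM h1' (o := o) (by rw [hτ']; exact ho)
  rw [← hτ] at e1
  rw [hτ'] at e2
  rw [e1, e2]
  apply dir_congr hM
  intro i hi
  exact h (i + 1) (by omega)

lemma lsrc_congr (hM : 0 < M) (h : ∀ i, i ≤ q → ω i = ω' i) :
    lsrc M e ω q = lsrc M e ω' q := by
  by_cases h1 : lsrc M e ω q = 0
  · by_cases h2 : lsrc M e ω' q = 0
    · rw [h1, h2]
    · exact (lsrc_congr_ne hM (fun i hi => (h i hi).symm) h2).symm
  · exact lsrc_congr_ne hM h h1

lemma lk_congr (hM : 0 < M) (h : ∀ i, i ≤ q → ω i = ω' i) : lk M e q ω = lk M e q ω' := by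
  induction q using Nat.strong_induction_on generalizing ω ω' with
  | _ q ih =>
    have h0 : ω 0 = ω' 0 := h 0 (Nat.zero_le _)
    by_cases h1 : (ω 0).1 = e
    · have h1' : (ω' 0).1 = e := by rw [← h0]; exact h1
      rcases Nat.lt_or_ge q M with h2 | h2
      · rw [lk_eq_lt h1 h2, lk_eq_lt h1' h2]
      · obtain ⟨p, rfl⟩ := Nat.exists_eq_add_of_le' h2
        rw [lk_eq_add hM h1, lk_eq_add hM h1']
        exact ih p (by omega) (fun i hi => h (i + 1) (by omega))
    · have h1' : (ω' 0).1 ≠ e := by rw [← h0]; exact h1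
      rcases Nat.lt_or_ge q 2 with h2 | h2
      · rw [lk_ne_lt h1 h2, lk_ne_lt h1' h2]
      · obtain ⟨p, rfl⟩ := Nat.exists_eq_add_of_le' h2
        rw [lk_ne_add hM h1, lk_ne_add hM h1', lsrc_congr hM h]
        congr 1
        exact ih p (by omega) (fun i hi => h (i + 1) (by omega))

lemma arr_congr (hM : 0 < M) (h : ∀ i, i ≤ q → ω i = ω' i) : arr M e ω q = arr M e ω' q := by
  unfold arr; rw [dir_congr hM h, lk_congr hM h]

end congr

section cont

variable {N M b : ℕ}

lemma arr_continuous (hM : 0 < M) (e : Fin 2) (q : ℕ) :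
    Continuous (fun ω : Sq N => arr M e ω q) := by
  rw [continuous_iff_continuousAt]
  intro ω
  have h1 : ∀ᶠ y in nhds ω, ∀ i ∈ Set.Iic q, y i = ω i := by
    rw [Filter.eventually_all_finite (Set.finite_Iic q)]
    intro i _
    have hc : Continuous (fun y : Sq N => y i) := continuous_apply i
    exact (hc.isOpen_preimage {ω i} (isOpen_discrete _)).mem_nhds rfl
  have h2 : (fun ω' : Sq N => arr M e ω' q) =ᶠ[nhds ω] fun _ => arr M e ω q := by
    filter_upwards [h1] with y hy
    exact arr_congr hM (fun i hi => hy i hi)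
  exact continuousAt_const.congr h2.symm

lemma Z_continuous (hb : 4 * (N + 1) ≤ b) (hM8 : 8 ≤ M) (hM2 : M % 2 = 0) (e : Fin 2) :
    Continuous (fun ω : Sq N => Z b M e ω) := by
  unfold Z val
  have hb0 := b_pos hb
  refine continuous_tsum (u := fun q : ℕ => (N : ℝ) / (b : ℝ) ^ q) (fun q => ?_)
    (geo_summable hb) (fun q ω => ?_)
  · have h1 : Continuous (fun n : ℕ => (n : ℝ)) := continuous_of_discreteTopology
    exact (h1.comp (arr_continuous (by omega) e q)).div_const _
  · rw [Real.norm_eq_abs, abs_of_nonneg (by positivity)]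
    have : (arr M e ω q : ℝ) ≤ N := by exact_mod_cast arr_le hM8 hM2
    gcongr

end cont

end Pool.Agent.PlanarGap
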