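import Mathlib
import Pool.Agent.MP_b109da_an.Prefix

/-! Counting nonzero entries of the arrays of sequences with short runs. -/

namespace Pool.Agent.PlanarGap

open Finset

/-- number of nonzero entries before `r` -/
def cnt (g : ℕ → ℕ) (r : ℕ) : ℕ := #{q ∈ range r | g q ≠ 0}

lemma cnt_congr {g g' : ℕ → ℕ} {r : ℕ} (h : ∀ q, q < r → (g q ≠ 0 ↔ g' q ≠ 0)) : cnt g r = cnt g' r := by
  unfold cnt
  congr 1
  apply Finset.filter_congr
  intro q hq
  exact h q (by simpa using hq)

lemma cnt_zero {g : ℕ → ℕ} {r : ℕ} (h : ∀ q, q < r → g q = 0) : cnt g r = 0 := by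
  unfold cnt
  rw [Finset.card_eq_zero, Finset.filter_eq_empty_iff]
  intro q hq
  rw [not_not]
  exact h q (by simpa using hq)

lemma cnt_le (g : ℕ → ℕ) (r : ℕ) : cnt g r ≤ r := by
  unfold cnt
  exact (Finset.card_filter_le _ _).trans (by simp)

lemma cnt_split (g : ℕ → ℕ) (m r : ℕ) : cnt g (r + m) = cnt g m + cnt (fun q => g (q + m)) r := by
  unfold cnt
  simp only [Finset.card_filter]
  rw [add_comm r m, Finset.sum_range_add]
  congr 1
  refine Finset.sum_congr rfl fun q _ => ?_
  rw [add_comm m q]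

lemma cnt_mono (g : ℕ → ℕ) {r r' : ℕ} (h : r ≤ r') : cnt g r ≤ cnt g r' := by
  obtain ⟨m, rfl⟩ := Nat.exists_eq_add_of_le' h
  rw [cnt_split]; omega

lemma cnt_add_le (g g' : ℕ → ℕ) (r : ℕ) : cnt (fun q => g q + g' q) r ≤ cnt g r + cnt g' r := by
  unfold cnt
  refine le_trans (Finset.card_le_card ?_) (Finset.card_union_le _ _)
  intro q hq
  simp only [Finset.mem_filter, Finset.mem_union] at hq ⊢
  by_cases h : g q = 0
  · right; refine ⟨hq.1, ?_⟩; intro h'; apply hq.2; rw [h, h']
  · left; exact ⟨hq.1, h⟩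

/-- all runs starting in `[1, r]` have length at most `Λ` -/
def gd {N : ℕ} (Λ r : ℕ) (ω : Sq N) : Prop :=
  ∀ k, 1 ≤ k → k ≤ r → (ω (k - 1)).1 ≠ (ω k).1 → ∃ j, j ≤ Λ ∧ (ω (k + j)).1 ≠ (ω k).1

lemma gd_sh {N Λ r r' n : ℕ} {ω : Sq N} (h : gd Λ r ω) (hr : r' + n ≤ r) : gd Λ r' (sh^[n] ω) := by
  intro k h1 h2 h3
  rw [sh_iterate, sh_iterate] at h3
  have h4 := h (k + n) (by omega) (by omega)
  rw [show k + n - 1 = k - 1 + n by omega] at h4
  obtain ⟨j, hj, hj'⟩ := h4 h3
  refine ⟨j, hj, ?_⟩
  rw [sh_iterate, sh_iterate, show k + j + n = k + n + j by ring]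
  exact hj'

section

variable {N M : ℕ} {e : Fin 2} {ω : Sq N}

lemma lk_run_eq (hM : 0 < M) {τ : ℕ} (h : ∀ i, i < τ → (ω i).1 = e) (q : ℕ) :
    lk M e (q + M * τ) ω = lk M e q (sh^[τ] ω) := by
  induction τ generalizing ω with
  | zero => simp
  | succ τ ih =>
    have h0 : (ω 0).1 = e := h 0 (by omega)
    rw [show q + M * (τ + 1) = (q + M * τ) + M by ring, lk_eq_add hM h0,
      ih (ω := sh ω) (fun i hi => h (i + 1) (by omega)), Function.iterate_succ_apply]

lemma cnt_lsrc_le (r : ℕ) :
    cnt (fun q => lsrc M e ω (q + 2)) r ≤ rl e (sh ω) / 8 := by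
  unfold cnt
  have h1 : ({q ∈ range r | lsrc M e ω (q + 2) ≠ 0}) ⊆
      (range (rl e (sh ω) / 8)).image (fun o => 1 + 4 * rl e (sh ω) + M * o) := by
    intro q hq
    simp only [Finset.mem_filter] at hq
    obtain ⟨h1, o, ho, h2⟩ := lsrc_ne_zero hq.2
    rw [Finset.mem_image]
    exact ⟨o, by simpa using ho, by omega⟩
  refine (Finset.card_le_card h1).trans (Finset.card_image_le.trans ?_)
  simp

lemma cnt_lk (hM8 : 8 ≤ M) (Λ r : ℕ) (h : gd Λ r ω) :
    8 * M * cnt (fun q => lk M e q ω) r ≤ r + M * Λ := by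
  have hM : 0 < M := by omega
  induction r using Nat.strong_induction_on generalizing ω with
  | _ r ih =>
    by_cases h0 : (ω 0).1 = e
    · rcases Nat.lt_or_ge r M with h1 | h1
      · rw [cnt_zero (fun q hq => lk_eq_lt h0 (by omega))]; simp
      · obtain ⟨p, rfl⟩ := Nat.exists_eq_add_of_le' h1
        rw [cnt_split, cnt_zero (r := M) (fun q hq => lk_eq_lt h0 hq), zero_add]
        simp only [lk_eq_add hM h0]
        have := ih p (by omega) (ω := sh ω) (gd_sh (n := 1) h (by omega))
        omega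
    · rcases Nat.lt_or_ge r 2 with h1 | h1
      · rw [cnt_zero (fun q hq => lk_ne_lt h0 (by omega))]; simp
      · obtain ⟨p, rfl⟩ := Nat.exists_eq_add_of_le' h1
        rw [cnt_split, cnt_zero (r := 2) (fun q hq => lk_ne_lt h0 hq), zero_add]
        simp only [lk_ne_add hM h0]
        have h2 := cnt_add_le (fun q => lsrc M e ω (q + 2)) (fun q => lk M e q (sh ω)) p
        have h3 := cnt_lsrc_le (M := M) (e := e) (ω := ω) p
        set A := cnt (fun q => lsrc M e ω (q + 2) + lk M e q (sh ω)) p with hA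
        set B := cnt (fun q => lsrc M e ω (q + 2)) p with hB
        set C := cnt (fun q => lk M e q (sh ω)) p with hC
        set τ := rl e (sh ω) with hτ
        rcases Nat.lt_or_ge τ 8 with h4 | h4
        · have : 8 * M * C ≤ p + M * Λ := ih p (by omega) (ω := sh ω) (gd_sh (n := 1) h (by omega))
          have h5 : A ≤ C := by omega
          have h6 : 8 * M * A ≤ 8 * M * C := Nat.mul_le_mul_left _ h5
          omega
        · obtain ⟨h5, h6⟩ := rl_spec (by omega) hτ.symm
          have h7 : τ ≤ Λ := by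
            have h8 := h 1 le_rfl (by omega)
            have h9 : (ω 1).1 = e := h5 0 (by omega)
            rw [h9] at h8
            obtain ⟨j, hj, hj'⟩ := h8 h0
            by_contra hc
            apply hj'
            have := h5 j (by omega)
            rw [sh_apply] at this
            rw [add_comm 1 j]; exact this
          have h8 : 8 * M * (τ / 8) ≤ M * τ := by
            have : M * (8 * (τ / 8)) ≤ M * τ := Nat.mul_le_mul_left M (by omega)
            calc 8 * M * (τ / 8) = M * (8 * (τ / 8)) := by ring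
              _ ≤ M * τ := this
          have h9 : M * τ ≤ M * Λ := Nat.mul_le_mul_left M h7
          have h10 : 8 * M * B ≤ 8 * M * (τ / 8) := Nat.mul_le_mul_left _ h3
          have h11 : 8 * M * A ≤ 8 * M * B + 8 * M * C := by
            rw [← mul_add]; exact Nat.mul_le_mul_left _ h2
          rcases Nat.lt_or_ge p (M * τ) with h12 | h12
          · have h13 : C = 0 := cnt_zero (fun q hq => lk_run hM h5 (by omega))
            rw [h13] at h11
            omega
          · obtain ⟨p', rfl⟩ := Nat.exists_eq_add_of_le' h12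
            have h13 : C = cnt (fun q => lk M e q (sh^[τ] (sh ω))) p' := by
              rw [hC, cnt_split, cnt_zero (r := M * τ) (fun q hq => lk_run hM h5 (by omega)), zero_add]
              simp only [lk_run_eq hM h5]
            have h14 : τ ≤ M * τ := Nat.le_mul_of_pos_left τ hM
            have h15 := ih p' (by omega) (ω := sh^[τ] (sh ω)) (by
              rw [← Function.iterate_succ_apply]
              exact gd_sh (n := τ + 1) h (by omega))
            rw [← h13] at h15
            omega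

lemma cnt_dir (hM8 : 8 ≤ M) (r : ℕ) :
    M * cnt (fun q => dir M e q ω) r ≤ r + M := by
  have hM : 0 < M := by omega
  induction r using Nat.strong_induction_on generalizing ω with
  | _ r ih =>
    have hone : ∀ m, m ≤ M → (ω 0).1 = e → cnt (fun q => dir M e q ω) m ≤ 1 := by
      intro m hm h0
      rcases Nat.eq_zero_or_pos m with rfl | hm0
      · have := cnt_le (fun q => dir M e q ω) 0
        omega
      · obtain ⟨m', rfl⟩ : ∃ m', m = m' + 1 := ⟨m - 1, by omega⟩
        rw [cnt_split]
        rw [cnt_zero (g := fun q => dir M e (q + 1) ω)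
          (fun q hq => dir_eq_lt h0 (by omega) (by omega))]
        have := cnt_le (fun q => dir M e q ω) 1
        omega
    by_cases h0 : (ω 0).1 = e
    · rcases Nat.lt_or_ge r M with h1 | h1
      · have := hone r (by omega) h0
        have h2 : M * cnt (fun q => dir M e q ω) r ≤ M * 1 := Nat.mul_le_mul_left M this
        omega
      · obtain ⟨p, rfl⟩ := Nat.exists_eq_add_of_le' h1
        rw [cnt_split]
        simp only [dir_eq_add hM h0]
        have h2 := ih p (by omega) (ω := sh ω)
        have h3 := hone M le_rfl h0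
        have h4 : M * cnt (fun q => dir M e q ω) M ≤ M * 1 := Nat.mul_le_mul_left M h3
        rw [mul_add]
        omega
    · rcases Nat.lt_or_ge r 2 with h1 | h1
      · rw [cnt_zero (fun q hq => dir_ne_lt h0 (by omega))]; simp
      · obtain ⟨p, rfl⟩ := Nat.exists_eq_add_of_le' h1
        rw [cnt_split, cnt_zero (r := 2) (fun q hq => dir_ne_lt h0 hq), zero_add]
        simp only [dir_ne_add hM h0]
        have h2 := ih p (by omega) (ω := sh ω)
        omega

/-- main count for a good sequence -/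
lemma cnt_arr (hM8 : 8 ≤ M) (ρ : ℕ) (h : gd ρ (16 * M * ρ) ω) :
    8 * cnt (arr M e ω) (16 * M * ρ) ≤ 145 * ρ + 8 := by
  have hM : 0 < M := by omega
  have h1 := cnt_lk (e := e) hM8 ρ (16 * M * ρ) h
  have h2 := cnt_dir (e := e) (ω := ω) hM8 (16 * M * ρ)
  have h3 : cnt (arr M e ω) (16 * M * ρ) ≤ _ :=
    cnt_add_le (fun q => dir M e q ω) (fun q => lk M e q ω) (16 * M * ρ)
  set A := cnt (arr M e ω) (16 * M * ρ)
  set B := cnt (fun q => dir M e q ω) (16 * M * ρ)
  set C := cnt (fun q => lk M e q ω) (16 * M * ρ)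
  have h4 : M * (8 * A) ≤ M * (145 * ρ + 8) := by
    calc M * (8 * A) ≤ M * (8 * (B + C)) := by gcongr
      _ = 8 * (M * B) + 8 * M * C := by ring
      _ ≤ 8 * (16 * M * ρ + M) + (16 * M * ρ + M * ρ) := by gcongr
      _ = M * (145 * ρ + 8) := by ring
  exact Nat.le_of_mul_le_mul_left h4 hM

end

/-- the possible initial segments of bounded support -/
def PS (N r c : ℕ) : Finset ((Fin 2 × Fin r) → Fin (N + 1)) :=
  {a | #{i | a i ≠ 0} ≤ c}

lemma PS_card (N r c : ℕ) : #(PS N r c) ≤ 4 ^ r * (N + 1) ^ c := by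
  classical
  have h1 : PS N r c ⊆ ({S : Finset (Fin 2 × Fin r) | #S ≤ c} : Finset (Finset (Fin 2 × Fin r))).biUnion
      (fun S => Fintype.piFinset (fun i => if i ∈ S then (Finset.univ : Finset (Fin (N + 1))) else {0})) := by
    intro a ha
    simp only [PS, Finset.mem_filter, Finset.mem_univ, true_and] at ha
    rw [Finset.mem_biUnion]
    refine ⟨Finset.filter (fun i => a i ≠ 0) Finset.univ, by simpa using ha, ?_⟩
    rw [Fintype.mem_piFinset]
    intro i
    by_cases h : a i = 0
    · rw [if_neg (by simpa using h)]; simp [h]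
    · rw [if_pos (by simpa using h)]; simp
  refine (Finset.card_le_card h1).trans (Finset.card_biUnion_le.trans ?_)
  have h2 : ∀ S ∈ ({S : Finset (Fin 2 × Fin r) | #S ≤ c} : Finset (Finset (Fin 2 × Fin r))),
      #(Fintype.piFinset (fun i => if i ∈ S then (Finset.univ : Finset (Fin (N + 1))) else {0}))
        ≤ (N + 1) ^ c := by
    intro S hS
    simp only [Finset.mem_filter, Finset.mem_univ, true_and] at hS
    rw [Fintype.card_piFinset]
    have h3 : ∀ i, #(if i ∈ S then (Finset.univ : Finset (Fin (N + 1))) else {0}) =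
        if i ∈ S then (N + 1) else 1 := by
      intro i; split_ifs <;> simp
    simp only [h3]
    rw [Finset.prod_ite_mem]
    simp only [Finset.univ_inter, Finset.prod_const]
    exact Nat.pow_le_pow_right (by omega) hS
  refine (Finset.sum_le_sum h2).trans ?_
  rw [Finset.sum_const, smul_eq_mul]
  gcongr
  refine (Finset.card_filter_le _ _).trans ?_
  rw [Finset.card_univ, Fintype.card_finset, Fintype.card_prod, Fintype.card_fin, Fintype.card_fin,
    pow_mul]
  norm_num

section

variable {N M : ℕ}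

/-- the initial segment of a sequence -/
noncomputable def pf (M r : ℕ) (ω : Sq N) : (Fin 2 × Fin r) → Fin (N + 1) :=
  fun i => Fin.ofNat (N + 1) (arr M i.1 ω i.2)

lemma pf_val (hM8 : 8 ≤ M) (hM2 : M % 2 = 0) {r : ℕ} (ω : Sq N) (i : Fin 2 × Fin r) :
    ((pf M r ω i : Fin (N + 1)) : ℕ) = arr M i.1 ω i.2 := by
  unfold pf
  rw [Fin.ofNat]
  exact Nat.mod_eq_of_lt (Nat.lt_succ_of_le (arr_le hM8 hM2))

lemma pf_mem (hM8 : 8 ≤ M) (hM2 : M % 2 = 0) {ρ : ℕ} {ω : Sq N} (h : gd ρ (16 * M * ρ) ω) :
    pf M (16 * M * ρ) ω ∈ PS N (16 * M * ρ) (37 * ρ + 2) := by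
  classical
  set r := 16 * M * ρ with hr
  simp only [PS, Finset.mem_filter, Finset.mem_univ, true_and]
  have h0 := cnt_arr (e := 0) hM8 ρ h
  have h1 := cnt_arr (e := 1) hM8 ρ h
  rw [← hr] at h0 h1
  have h2 : #{i : Fin 2 × Fin r | pf M r ω i ≠ 0} = cnt (arr M 0 ω) r + cnt (arr M 1 ω) r := by
    have h3 : ∀ i : Fin 2 × Fin r, pf M r ω i ≠ 0 ↔ arr M i.1 ω i.2 ≠ 0 := by
      intro i
      rw [Ne, Fin.ext_iff, pf_val hM8 hM2]; rfl
    have h4 : ∀ e : Fin 2, cnt (arr M e ω) r = ∑ q : Fin r, if arr M e ω q ≠ 0 then 1 else 0 := by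
      intro e
      unfold cnt
      rw [Finset.card_filter, ← Fin.sum_univ_eq_sum_range (fun q => if arr M e ω q ≠ 0 then 1 else 0)]
    rw [Finset.card_filter, h4, h4, Fintype.sum_prod_type, Fin.sum_univ_two]
    simp only [h3]
  rw [h2]
  omega

end

end Pool.Agent.PlanarGap
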