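import Mathlib
import Pool.Agent.MP_b109da_an.Prefix

/-! The repeller, the expanding map, and its basic properties. -/

namespace Pool.Agent.PlanarGap

open Finset

/-- the plane -/
abbrev Pl := EuclideanSpace ℝ (Fin 2)

/-- the coding map -/
noncomputable def cod {N : ℕ} (b M : ℕ) (ω : Sq N) : Pl := WithLp.toLp 2 (fun e => Z b M e ω)

@[simp] lemma cod_apply {N : ℕ} (b M : ℕ) (ω : Sq N) (e : Fin 2) : cod b M ω e = Z b M e ω := rfl

/-- the repeller -/
def XX (N b M : ℕ) : Set Pl := Set.range (cod (N := N) b M)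

/-- the expanding branch attached to the symbol `s` -/
noncomputable def F {N : ℕ} (b M : ℕ) (s : Sym N) (z : Pl) : Pl :=
  WithLp.toLp 2 (fun e => if e = s.1 then (b : ℝ) ^ M * (z e - ((s.2 : ℕ) + 1)) else
    (b : ℝ) ^ 2 * (z e - leak b M ((b : ℝ) ^ M * (z s.1 - ((s.2 : ℕ) + 1)))))

lemma F_apply_eq {N b M : ℕ} {s : Sym N} {z : Pl} :
    F b M s z s.1 = (b : ℝ) ^ M * (z s.1 - ((s.2 : ℕ) + 1)) := by
  show (if s.1 = s.1 then _ else _) = _
  rw [if_pos rfl]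

lemma F_apply_ne {N b M : ℕ} {s : Sym N} {z : Pl} {e : Fin 2} (h : e ≠ s.1) :
    F b M s z e = (b : ℝ) ^ 2 * (z e - leak b M ((b : ℝ) ^ M * (z s.1 - ((s.2 : ℕ) + 1)))) := by
  show (if e = s.1 then _ else _) = _
  rw [if_neg h]

/-- the domain of the branch attached to `s` -/
def W {N : ℕ} (s : Sym N) : Set Pl := {z | |z s.1 - ((s.2 : ℕ) + 1)| < 1 / 2 ∧ z (s.1 + 1) < 1 / 2}

lemma W_open {N : ℕ} (s : Sym N) : IsOpen (W s) := by
  unfold W
  have c : ∀ i : Fin 2, Continuous (fun z : Pl => z i) := fun i => by fun_prop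
  apply IsOpen.inter
  · exact isOpen_lt ((c s.1).sub continuous_const).abs continuous_const
  · exact isOpen_lt (c _) continuous_const

lemma W_disj {N : ℕ} {s s' : Sym N} {z : Pl} (h : z ∈ W s) (h' : z ∈ W s') : s = s' := by
  obtain ⟨h1, h2⟩ := h
  obtain ⟨h1', h2'⟩ := h'
  rw [abs_lt] at h1 h1'
  have hs : s.1 = s'.1 := by
    by_contra hne
    have h3 : s.1 = s'.1 + 1 := fin2_ne.1 hne
    have h4 : (0:ℝ) ≤ (s.2 : ℕ) := by positivity
    rw [← h3] at h2'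
    linarith
  rw [← hs] at h1'
  apply Prod.ext hs
  apply Fin.ext
  have h5 : (((s.2 : ℕ) : ℝ)) < (s'.2 : ℕ) + 1 := by linarith
  have h6 : (((s'.2 : ℕ) : ℝ)) < (s.2 : ℕ) + 1 := by linarith
  have h5' : (s.2 : ℕ) < (s'.2 : ℕ) + 1 := by exact_mod_cast h5
  have h6' : (s'.2 : ℕ) < (s.2 : ℕ) + 1 := by exact_mod_cast h6
  omega

open Classical in
/-- the expanding map -/
noncomputable def ff (N b M : ℕ) (z : Pl) : Pl :=
  if h : ∃ s : Sym N, z ∈ W s then F b M h.choose z else 0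

lemma ff_eq {N b M : ℕ} {s : Sym N} {z : Pl} (h : z ∈ W s) : ff N b M z = F b M s z := by
  have hex : ∃ s : Sym N, z ∈ W s := ⟨s, h⟩
  unfold ff
  rw [dif_pos hex, W_disj hex.choose_spec h]

/-- the open neighbourhood of the repeller -/
def UU (N : ℕ) : Set Pl := ⋃ s : Sym N, W s

lemma UU_open (N : ℕ) : IsOpen (UU N) := isOpen_iUnion fun s => W_open s

section sys

variable {N M b : ℕ} (hb : 4 * (N + 1) ≤ b) (hM8 : 8 ≤ M) (hM2 : M % 2 = 0)

include hb hM8 hM2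

omit hb hM8 hM2 in
lemma Z_nonneg (e : Fin 2) (ω : Sq N) : 0 ≤ Z b M e ω := val_nonneg

lemma Z_le (e : Fin 2) (ω : Sq N) : Z b M e ω ≤ N + 1 := val_le hb (fun _ => arr_le hM8 hM2)

lemma Z_ne_lt {e : Fin 2} {ω : Sq N} (h : (ω 0).1 ≠ e) : Z b M e ω < 1 / 2 := by
  have hb0 := b_pos hb
  have h1 : Z b M e ω = val b (fun p => arr M e ω (p + 2)) / (b : ℝ) ^ 2 := by
    unfold Z
    rw [val_split hb (fun q => arr_le (e := e) (ω := ω) hM8 hM2) 2]
    rw [Finset.sum_eq_zero, zero_add]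
    intro p hp
    rw [arr_ne_lt h (by simpa using hp)]; simp
  have h2 : val b (fun p => arr M e ω (p + 2)) ≤ N + 1 := val_le hb (fun _ => arr_le hM8 hM2)
  rw [h1, div_lt_iff₀ (by positivity)]
  have h3 := b_ge hb
  have h4 := b_ge4 hb
  nlinarith

lemma cod_mem_W (ω : Sq N) : cod b M ω ∈ W (ω 0) := by
  have hb0 := b_pos hb
  constructor
  · rw [cod_apply, Z_eq hb hM8 hM2 rfl]
    have h1 := Z_nonneg (b := b) (M := M) (ω 0).1 (sh ω)
    have h2 := Z_le hb hM8 hM2 (ω 0).1 (sh ω)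
    rw [add_sub_cancel_left, abs_of_nonneg (by positivity)]
    rw [div_lt_iff₀ (by positivity)]
    have h3 := b_ge hb
    have h4 := b_ge4 hb
    have h5 : (b : ℝ) ^ 1 ≤ (b : ℝ) ^ M := pow_le_pow_right₀ (by linarith) (by omega)
    rw [pow_one] at h5
    linarith
  · exact Z_ne_lt hb hM8 hM2 (fin2_add_ne _).symm

lemma F_cod (ω : Sq N) : F b M (ω 0) (cod b M ω) = cod b M (sh ω) := by
  have hb0 := b_pos hb
  have hsub : (b : ℝ) ^ M * (cod b M ω (ω 0).1 - (((ω 0).2 : ℕ) + 1)) = Z b M (ω 0).1 (sh ω) := by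
    rw [cod_apply, Z_eq hb hM8 hM2 rfl, add_sub_cancel_left]
    field_simp
  ext e
  by_cases he : e = (ω 0).1
  · subst he
    rw [F_apply_eq, hsub, cod_apply]
  · rw [F_apply_ne he, hsub, cod_apply, cod_apply, Z_ne hb hM8 hM2 (Ne.symm he)]
    rw [fin2_ne.1 (Ne.symm he)]
    field_simp
    ring

/-- prepend a symbol -/
def cons (s : Sym N) (ω : Sq N) : Sq N := fun n => Nat.casesOn n s (fun m => ω m)

omit hb hM8 hM2 in
@[simp] lemma cons_zero (s : Sym N) (ω : Sq N) : cons s ω 0 = s := rfl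

omit hb hM8 hM2 in
@[simp] lemma sh_cons (s : Sym N) (ω : Sq N) : sh (cons s ω) = ω := rfl

omit hb hM8 hM2 in
lemma F_inj (hb0 : (0:ℝ) < b) {s : Sym N} {z w : Pl} (h : F b M s z = F b M s w) : z = w := by
  have h1 : z s.1 = w s.1 := by
    have h2 : F b M s z s.1 = F b M s w s.1 := by rw [h]
    rw [F_apply_eq, F_apply_eq] at h2
    have h3 : (b : ℝ) ^ M ≠ 0 := by positivity
    have := mul_left_cancel₀ h3 h2
    linarith
  ext e
  by_cases he : e = s.1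
  · rw [he]; exact h1
  · have h2 : F b M s z e = F b M s w e := by rw [h]
    rw [F_apply_ne he, F_apply_ne he, h1] at h2
    have h3 : (b : ℝ) ^ 2 ≠ 0 := by positivity
    have := mul_left_cancel₀ h3 h2
    linarith

lemma ff_cod (ω : Sq N) : ff N b M (cod b M ω) = cod b M (sh ω) := by
  rw [ff_eq (cod_mem_W hb hM8 hM2 ω), F_cod hb hM8 hM2]

lemma XX_subset_UU : XX N b M ⊆ UU N := by
  rintro _ ⟨ω, rfl⟩
  exact Set.mem_iUnion.2 ⟨ω 0, cod_mem_W hb hM8 hM2 ω⟩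

lemma preimage_XX : {z ∈ UU N | ff N b M z ∈ XX N b M} = XX N b M := by
  ext z
  constructor
  · rintro ⟨hz, ω, hω⟩
    obtain ⟨s, hs⟩ := Set.mem_iUnion.1 hz
    refine ⟨cons s ω, ?_⟩
    apply F_inj (M := M) (s := s) (b_pos hb)
    have h1 := F_cod hb hM8 hM2 (cons s ω)
    rw [cons_zero, sh_cons] at h1
    rw [h1, hω, ff_eq hs]
  · rintro ⟨ω, rfl⟩
    exact ⟨XX_subset_UU hb hM8 hM2 ⟨ω, rfl⟩, sh ω, (ff_cod hb hM8 hM2 ω).symm⟩

lemma XX_compact : IsCompact (XX N b M) := by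
  apply isCompact_range
  refine (PiLp.continuous_toLp 2 _).comp ?_
  exact continuous_pi fun e => Z_continuous hb hM8 hM2 e

omit hb hM8 hM2 in
lemma XX_nonempty (hN : 0 < N) : (XX N b M).Nonempty :=
  ⟨_, (fun _ => ((0 : Fin 2), (⟨0, hN⟩ : Fin N))), rfl⟩

omit hM8 hM2 in
lemma F_contDiff (s : Sym N) : ContDiff ℝ 1 (F b M s) := by
  have hl := leak_contDiff (b := b) (M := M) (by omega)
  rw [contDiff_euclidean]
  intro e
  have hc : ∀ i : Fin 2, ContDiff ℝ 1 (fun z : Pl => z i) := fun i => by fun_prop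
  by_cases he : e = s.1
  · have : (fun z : Pl => F b M s z e) = fun z : Pl => (b : ℝ) ^ M * (z s.1 - ((s.2 : ℕ) + 1)) := by
      funext z; rw [he, F_apply_eq]
    rw [this]
    exact contDiff_const.mul ((hc _).sub contDiff_const)
  · have : (fun z : Pl => F b M s z e) = fun z : Pl => (b : ℝ) ^ 2 * (z e - leak b M ((b : ℝ) ^ M * (z s.1 - ((s.2 : ℕ) + 1)))) := by
      funext z; rw [F_apply_ne he]
    rw [this]
    refine contDiff_const.mul ((hc _).sub (hl.comp ?_))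
    exact contDiff_const.mul ((hc _).sub contDiff_const)

omit hM8 hM2 in
lemma ff_contDiffOn : ContDiffOn ℝ 1 (ff N b M) (UU N) := by
  intro z hz
  obtain ⟨s, hs⟩ := Set.mem_iUnion.1 hz
  apply ContDiffAt.contDiffWithinAt
  refine (F_contDiff hb (M := M) s).contDiffAt.congr_of_eventuallyEq ?_
  filter_upwards [(W_open s).mem_nhds hs] with y hy
  exact ff_eq hy

omit hb hM8 hM2 in
/-- the linear part of the branch -/
noncomputable def LL (b M : ℕ) (t : Fin 2) : Pl →L[ℝ] Pl :=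
  LinearMap.toContinuousLinearMap
    { toFun := fun v => WithLp.toLp 2 (fun e => if e = t then (b : ℝ) ^ M * v e else (b : ℝ) ^ 2 * v e)
      map_add' := by
        intro v w
        ext e
        show (if e = t then (b : ℝ) ^ M * (v + w) e else (b : ℝ) ^ 2 * (v + w) e) =
          (if e = t then (b : ℝ) ^ M * v e else (b : ℝ) ^ 2 * v e) +
          (if e = t then (b : ℝ) ^ M * w e else (b : ℝ) ^ 2 * w e)
        split_ifs <;> simp [mul_add]
      map_smul' := by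
        intro c v
        ext e
        show (if e = t then (b : ℝ) ^ M * (c • v) e else (b : ℝ) ^ 2 * (c • v) e) =
          c * (if e = t then (b : ℝ) ^ M * v e else (b : ℝ) ^ 2 * v e)
        split_ifs <;> simp <;> ring }

omit hb hM8 hM2 in
lemma LL_apply_eq (b M : ℕ) (t : Fin 2) (v : Pl) : LL b M t v t = (b : ℝ) ^ M * v t := by
  show (if t = t then _ else _) = _
  rw [if_pos rfl]

omit hb hM8 hM2 in
lemma LL_apply_ne (b M : ℕ) {t e : Fin 2} (h : e ≠ t) (v : Pl) : LL b M t v e = (b : ℝ) ^ 2 * v e := by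
  show (if e = t then _ else _) = _
  rw [if_neg h]

lemma F_hasFDerivAt (ω : Sq N) : HasFDerivAt (F b M (ω 0)) (LL b M (ω 0).1) (cod b M ω) := by
  have hb0 := b_pos hb
  rw [← hasFDerivWithinAt_univ, hasFDerivWithinAt_euclidean]
  intro e
  rw [hasFDerivWithinAt_univ]
  have hproj : ∀ i : Fin 2, HasFDerivAt (fun z : Pl => z i) (PiLp.proj 2 (fun _ : Fin 2 => ℝ) i : Pl →L[ℝ] ℝ) (cod b M ω) :=
    fun i => (PiLp.proj 2 (fun _ : Fin 2 => ℝ) i : Pl →L[ℝ] ℝ).hasFDerivAt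
  have hin : HasFDerivAt (fun z : Pl => (b : ℝ) ^ M * (z (ω 0).1 - (((ω 0).2 : ℕ) + 1)))
      ((b : ℝ) ^ M • (PiLp.proj 2 (fun _ : Fin 2 => ℝ) (ω 0).1 : Pl →L[ℝ] ℝ)) (cod b M ω) :=
    ((hproj (ω 0).1).sub_const _).const_mul _
  have hsub : (b : ℝ) ^ M * (cod b M ω (ω 0).1 - (((ω 0).2 : ℕ) + 1)) = Z b M (ω 0).1 (sh ω) := by
    rw [cod_apply, Z_eq hb hM8 hM2 rfl, add_sub_cancel_left]
    field_simp
  by_cases he : e = (ω 0).1
  · subst he
    have h1 : (fun z : Pl => F b M (ω 0) z (ω 0).1) =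
        fun z : Pl => (b : ℝ) ^ M * (z (ω 0).1 - (((ω 0).2 : ℕ) + 1)) := by
      funext z; rw [F_apply_eq]
    rw [h1]
    refine hin.congr_fderiv ?_
    ext v
    show (b : ℝ) ^ M * v (ω 0).1 = LL b M (ω 0).1 v (ω 0).1
    rw [LL_apply_eq]
  · have h1 : (fun z : Pl => F b M (ω 0) z e) = fun z : Pl => (b : ℝ) ^ 2 *
        (z e - leak b M ((b : ℝ) ^ M * (z (ω 0).1 - (((ω 0).2 : ℕ) + 1)))) := by
      funext z; rw [F_apply_ne he]
    rw [h1]
    have hl : HasDerivAt (leak b M) 0 ((b : ℝ) ^ M * (cod b M ω (ω 0).1 - (((ω 0).2 : ℕ) + 1))) := by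
      rw [hsub]
      exact leak_hasDerivAt_val hb (fun _ => arr_le hM8 hM2)
    have h2 := hl.comp_hasFDerivAt (cod b M ω) hin
    have h3 := ((hproj e).sub h2).const_mul ((b : ℝ) ^ 2)
    refine h3.congr_fderiv ?_
    ext v
    show (b : ℝ) ^ 2 * (v e - (0:ℝ) * _) = LL b M (ω 0).1 v e
    rw [LL_apply_ne _ _ he, zero_mul, sub_zero]

lemma ff_hasFDerivAt (ω : Sq N) : HasFDerivAt (ff N b M) (LL b M (ω 0).1) (cod b M ω) := by
  refine (F_hasFDerivAt hb hM8 hM2 ω).congr_of_eventuallyEq ?_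
  filter_upwards [(W_open (ω 0)).mem_nhds (cod_mem_W hb hM8 hM2 ω)] with y hy
  exact ff_eq hy

omit hM2 in
lemma LL_expand (t : Fin 2) {v : Pl} (hv : v ≠ 0) : ‖v‖ < ‖LL b M t v‖ := by
  have h4 := b_ge4 hb
  have hbM : (4:ℝ) ≤ (b : ℝ) ^ M := by
    calc (4:ℝ) ≤ (b : ℝ) ^ 1 := by rw [pow_one]; exact h4
      _ ≤ (b : ℝ) ^ M := pow_le_pow_right₀ (by linarith) (by omega)
  have hb2 : (4:ℝ) ≤ (b : ℝ) ^ 2 := by nlinarith
  have hcomp : ∀ e, 4 * |v e| ≤ |LL b M t v e| := by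
    intro e
    by_cases he : e = t
    · subst he
      rw [LL_apply_eq, abs_mul, abs_of_pos (show (0:ℝ) < (b : ℝ) ^ M by linarith)]
      gcongr
    · rw [LL_apply_ne _ _ he, abs_mul, abs_of_pos (show (0:ℝ) < (b : ℝ) ^ 2 by linarith)]
      gcongr
  have hsq : 16 * ‖v‖ ^ 2 ≤ ‖LL b M t v‖ ^ 2 := by
    rw [EuclideanSpace.real_norm_sq_eq, EuclideanSpace.real_norm_sq_eq, Finset.mul_sum]
    apply Finset.sum_le_sum
    intro e _
    have := hcomp e
    rw [← sq_abs (v e), ← sq_abs (LL b M t v e)]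
    nlinarith [abs_nonneg (v e)]
  have hpos : 0 < ‖v‖ := norm_pos_iff.2 hv
  apply lt_of_pow_lt_pow_left₀ 2 (norm_nonneg _)
  nlinarith

lemma ff_expand {x : Pl} (hx : x ∈ XX N b M) {v : Pl} (hv : v ≠ 0) :
    ‖v‖ < ‖fderiv ℝ (ff N b M) x v‖ := by
  obtain ⟨ω, rfl⟩ := hx
  rw [(ff_hasFDerivAt hb hM8 hM2 ω).fderiv]
  exact LL_expand hb hM8 _ hv

lemma ff_mapsTo : Set.MapsTo (ff N b M) (XX N b M) (XX N b M) := by
  rintro _ ⟨ω, rfl⟩
  exact ⟨sh ω, (ff_cod hb hM8 hM2 ω).symm⟩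

lemma ff_iterate_cod (n : ℕ) (ω : Sq N) : (ff N b M)^[n] (cod b M ω) = cod b M (sh^[n] ω) := by
  induction n generalizing ω with
  | zero => rfl
  | succ n ih => rw [Function.iterate_succ_apply, ff_cod hb hM8 hM2, ih, Function.iterate_succ_apply]

/-- distances of points with a common initial segment -/
lemma dist_cod_le {n : ℕ} {ω ω' : Sq N} (h : ∀ e q, q < n → arr M e ω q = arr M e ω' q) :
    dist (cod b M ω) (cod b M ω') ≤ 2 * ((N + 1) / (b : ℝ) ^ n) := by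
  have hb0 := b_pos hb
  have h1 : ∀ e, |Z b M e ω - Z b M e ω'| ≤ (N + 1) / (b : ℝ) ^ n := fun e =>
    val_diff hb (fun _ => arr_le hM8 hM2) (fun _ => arr_le hM8 hM2) (h e)
  rw [EuclideanSpace.dist_eq, Fin.sum_univ_two]
  apply Real.sqrt_le_iff.2
  refine ⟨by positivity, ?_⟩
  have h2 := h1 0
  have h3 := h1 1
  simp only [cod_apply, Real.dist_eq]
  have h4 : (0:ℝ) ≤ (N + 1) / (b : ℝ) ^ n := by positivity
  nlinarith [abs_nonneg (Z b M 0 ω - Z b M 0 ω'), abs_nonneg (Z b M 1 ω - Z b M 1 ω')]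

/-- close points have a common initial segment -/
lemma arr_eq_of_dist {r : ℕ} {ω ω' : Sq N}
    (h : dist (cod b M ω) (cod b M ω') < 1 / (2 * (b : ℝ) ^ r)) (e : Fin 2) {q : ℕ} (hq : q ≤ r) :
    arr M e ω q = arr M e ω' q := by
  have h1 : |Z b M e ω - Z b M e ω'| ≤ dist (cod b M ω) (cod b M ω') := by
    rw [EuclideanSpace.dist_eq]
    apply Real.le_sqrt_of_sq_le
    have : |Z b M e ω - Z b M e ω'| ^ 2 = dist (cod b M ω e) (cod b M ω' e) ^ 2 := by
      simp only [cod_apply, Real.dist_eq]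
    rw [this]
    exact Finset.single_le_sum (f := fun i => dist (cod b M ω i) (cod b M ω' i) ^ 2)
      (fun i _ => sq_nonneg _) (Finset.mem_univ e)
  exact val_sep hb (fun _ => arr_le hM8 hM2) (fun _ => arr_le hM8 hM2)
    (lt_of_le_of_lt h1 h) q hq

/-- specification -/
lemma spec {ε : ℝ} (hε : 0 < ε) : ∃ L : ℕ, ∀ k : ℕ, ∀ w : ℕ → Sq N, ∀ a c : ℕ → ℕ,
    (∀ j, j < k → a j ≤ c j) → (∀ j, j + 1 < k → c j + L ≤ a (j + 1)) →
    ∃ ω : Sq N, ∀ j, j < k → ∀ i, a j ≤ i → i ≤ c j →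
      dist ((ff N b M)^[i] (cod b M ω)) ((ff N b M)^[i] (cod b M (w j))) ≤ ε := by
  have hb0 := b_pos hb
  have h4 := b_ge4 hb
  obtain ⟨n, hn⟩ : ∃ n : ℕ, 2 * ((N + 1) / (b : ℝ) ^ n) ≤ ε := by
    obtain ⟨n, hn⟩ := exists_pow_lt_of_lt_one (show 0 < ε / (2 * ((N : ℝ) + 1)) by positivity)
      (show (b : ℝ)⁻¹ < 1 from inv_lt_one_of_one_lt₀ (by linarith))
    refine ⟨n, ?_⟩
    rw [inv_pow, lt_div_iff₀ (by positivity)] at hn
    have : 2 * (((N : ℝ) + 1) / (b : ℝ) ^ n) = ((b : ℝ) ^ n)⁻¹ * (2 * ((N : ℝ) + 1)) := by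
      field_simp
    rw [this]; exact hn.le
  refine ⟨n, fun k w a c hac hca => ?_⟩
  classical
  have hmono : ∀ j j', j < j' → j' < k → c j + n ≤ a j' := by
    intro j j' hj
    induction j', hj using Nat.le_induction with
    | base => intro h; exact hca j h
    | succ m hm ih =>
      intro h
      have h1 := ih (by omega)
      have h2 := hac m (by omega)
      have h3 := hca m h
      omega
  let ω : Sq N := fun i => if h : ∃ j, j < k ∧ a j ≤ i ∧ i < c j + n then w h.choose i else w 0 i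
  have hω : ∀ j, j < k → ∀ i, a j ≤ i → i < c j + n → ω i = w j i := by
    intro j hj i h1 h2
    have hex : ∃ j, j < k ∧ a j ≤ i ∧ i < c j + n := ⟨j, hj, h1, h2⟩
    obtain ⟨g1, g2, g3⟩ := hex.choose_spec
    have : hex.choose = j := by
      by_contra hne
      rcases lt_or_gt_of_ne hne with h3 | h3
      · have := hmono _ _ h3 hj
        omega
      · have := hmono _ _ h3 g1
        omega
    show (if h : ∃ j, j < k ∧ a j ≤ i ∧ i < c j + n then w h.choose i else w 0 i) = _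
    rw [dif_pos hex, this]
  refine ⟨ω, fun j hj i h1 h2 => ?_⟩
  rw [ff_iterate_cod hb hM8 hM2, ff_iterate_cod hb hM8 hM2]
  refine (dist_cod_le hb hM8 hM2 (n := n) fun e q hq => ?_).trans hn
  apply arr_congr (by omega)
  intro l hl
  rw [sh_iterate, sh_iterate]
  exact hω j hj _ (by omega) (by omega)

end sys

end Pool.Agent.PlanarGap
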