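import Mathlib
import Pool.Agent.MP_b109da_an.Prefix

/-! Visible digits of the sequences whose run lengths grow geometrically. -/

namespace Pool.Agent.PlanarGap

open Finset

/-- the coordinate attached to the parity of `j` -/
def par (j : ℕ) : Fin 2 := Fin.ofNat 2 j

lemma par_succ (j : ℕ) : par (j + 1) = par j + 1 := by
  unfold par
  apply Fin.ext
  simp [Fin.val_add]

/-- the type sequence with geometrically growing runs -/
def th (n : ℕ) : Fin 2 := par (Nat.log 256 n)

lemma th_eq {j n : ℕ} (h1 : 256 ^ j ≤ n) (h2 : n < 256 ^ (j + 1)) : th n = par j := by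
  unfold th
  rw [Nat.log_eq_of_pow_le_of_lt_pow h1 h2]

/-- sequences with prescribed types -/
def sq {N : ℕ} (x : ℕ → Fin N) : Sq N := fun n => (th n, x n)

section transport

variable {N M : ℕ} {e : Fin 2} {ω : Sq N}

/-- total contraction exponent of coordinate `e` at time `n` -/
def PP (M : ℕ) (e : Fin 2) (n : ℕ) : ℕ := ∑ i ∈ range n, wt M e (th i)

/-- total contraction exponent of coordinate `e` at time `n` for a general sequence -/
def PW {N : ℕ} (M : ℕ) (e : Fin 2) (n : ℕ) (ω : Sq N) : ℕ := ∑ i ∈ range n, wt M e (ω i).1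

lemma PW_succ (n : ℕ) : PW M e (n + 1) ω = PW M e n (sh ω) + wt M e (ω 0).1 := by
  unfold PW
  rw [Finset.sum_range_succ']
  rfl

lemma dir_transport (hM : 0 < M) (q n : ℕ) :
    dir M e (q + PW M e n ω) ω = dir M e q (sh^[n] ω) := by
  induction n generalizing ω with
  | zero => simp [PW]
  | succ n ih =>
    rw [PW_succ, Function.iterate_succ_apply, ← ih (ω := sh ω), ← add_assoc]
    by_cases h : (ω 0).1 = e
    · rw [wt_eq h, dir_eq_add hM h]
    · rw [wt_ne h, dir_ne_add hM h]

lemma lk_transport (hM8 : 8 ≤ M) {q n : ℕ} (h0 : lk M e q (sh^[n] ω) ≠ 0) :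
    lk M e (q + PW M e n ω) ω = lk M e q (sh^[n] ω) := by
  have hM : 0 < M := by omega
  induction n generalizing ω with
  | zero => simp [PW]
  | succ n ih =>
    rw [Function.iterate_succ_apply] at h0
    rw [PW_succ, Function.iterate_succ_apply, ← ih (ω := sh ω) h0, ← add_assoc]
    rw [← ih (ω := sh ω) h0] at h0
    by_cases h : (ω 0).1 = e
    · rw [wt_eq h, lk_eq_add hM h]
    · rw [wt_ne h, lk_ne_add hM h]
      have : lsrc M e ω (q + PW M e n (sh ω) + 2) = 0 := by
        by_contra hc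
        exact h0 (no_coll hM8 hc)
      rw [this, zero_add]

lemma arr_of_dir (hM : 0 < M) (hM2 : M % 2 = 0) {q : ℕ} (h : dir M e q ω ≠ 0) :
    arr M e ω q = dir M e q ω := by
  unfold arr
  rcases Nat.mod_two_eq_zero_or_one q with h1 | h1
  · rw [lk_even hM hM2 h1, add_zero]
  · exact absurd (dir_odd hM hM2 h1) h

lemma arr_of_lk (hM : 0 < M) (hM2 : M % 2 = 0) {q : ℕ} (h : lk M e q ω ≠ 0) :
    arr M e ω q = lk M e q ω := by
  unfold arr
  rcases Nat.mod_two_eq_zero_or_one q with h1 | h1
  · exact absurd (lk_even hM hM2 h1) h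
  · rw [dir_odd hM hM2 h1, zero_add]

lemma PW_sq (x : ℕ → Fin N) (n : ℕ) : PW M e n (sq x) = PP M e n := rfl

lemma PP_le (hM : 2 ≤ M) (n : ℕ) : PP M e n ≤ M * n := by
  unfold PP
  calc ∑ i ∈ range n, wt M e (th i) ≤ ∑ i ∈ range n, M := by
        apply Finset.sum_le_sum
        intro i _
        unfold wt; split_ifs <;> omega
    _ = M * n := by rw [Finset.sum_const, card_range, smul_eq_mul, mul_comm]

lemma PP_mono {n n' : ℕ} (h : n ≤ n') : PP M e n ≤ PP M e n' := by
  unfold PP
  exact Finset.sum_le_sum_of_subset (Finset.range_mono h)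

lemma PP_par (hM : 2 ≤ M) (j : ℕ) :
    PP M (par (j + 1)) (256 ^ (j + 1)) ≤ M * 256 ^ j + 2 * 256 ^ (j + 1) := by
  have h1 : 256 ^ j ≤ 256 ^ (j + 1) := Nat.pow_le_pow_right (by norm_num) (by omega)
  obtain ⟨m, hm⟩ := Nat.exists_eq_add_of_le h1
  have h2 : PP M (par (j + 1)) (256 ^ (j + 1)) =
      PP M (par (j + 1)) (256 ^ j) + ∑ i ∈ range m, wt M (par (j + 1)) (th (256 ^ j + i)) := by
    unfold PP
    rw [hm, Finset.sum_range_add]
  have h3 : ∑ i ∈ range m, wt M (par (j + 1)) (th (256 ^ j + i)) = 2 * m := by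
    rw [Finset.sum_congr rfl (g := fun _ => 2)]
    · rw [Finset.sum_const, card_range, smul_eq_mul, mul_comm]
    · intro i hi
      have hi' : i < m := by simpa using hi
      rw [th_eq (j := j) (by omega) (by omega)]
      unfold wt
      rw [if_neg]
      rw [par_succ]
      exact (fin2_add_ne _).symm
  rw [h2, h3]
  have h4 := PP_le (e := par (j + 1)) hM (256 ^ j)
  omega

end transport

section visible

variable {N M : ℕ} (hM8 : 8 ≤ M) (hM2 : M % 2 = 0)

/-- the `n`-th digit is visible before level `r` -/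
def Vis (N M r n : ℕ) : Prop :=
  ∃ e : Fin 2, ∃ q, q ≤ r ∧ ∀ x : ℕ → Fin N, arr M e (sq x) q = (x n : ℕ) + 1

include hM8 hM2

/-- direct digits -/
lemma vis_direct {j o r : ℕ} (ho : 256 ^ j + o < 256 ^ (j + 1))
    (hr : PP M (par j) (256 ^ j) + M * o ≤ r) : Vis N M r (256 ^ j + o) := by
  have hM : 0 < M := by omega
  refine ⟨par j, M * o + PP M (par j) (256 ^ j), by omega, fun x => ?_⟩
  have hrun : ∀ i, i < o → ((sh^[256 ^ j] (sq x)) i).1 = par j := by
    intro i hi
    rw [sh_iterate]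
    show th _ = _
    exact th_eq (by omega) (by omega)
  have h1 : dir M (par j) (M * o + PP M (par j) (256 ^ j)) (sq x) = (x (256 ^ j + o) : ℕ) + 1 := by
    rw [← PW_sq (N := N) x, dir_transport hM]
    have h2 := dir_run_eq hM hrun 0
    rw [add_zero] at h2
    rw [h2, ← Function.iterate_add_apply]
    have h3 : ((sh^[o + 256 ^ j] (sq x)) 0).1 = par j := by
      rw [sh_iterate]
      show th _ = _
      exact th_eq (by omega) (by omega)
    rw [dir_zero hM h3, sh_iterate, zero_add]
    show ((x (o + 256 ^ j) : ℕ)) + 1 = _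
    rw [add_comm o]
  rw [arr_of_dir hM hM2 (by rw [h1]; omega), h1]

/-- leaked digits: the run `j + 1` reveals the beginning of the run `j + 2` -/
lemma vis_leak {j o r : ℕ} (ho : 8 * o + 8 ≤ 255 * 256 ^ (j + 1))
    (hr : PP M (par (j + 1)) (256 ^ (j + 1)) + 3 + 4 * (255 * 256 ^ (j + 1)) + M * o ≤ r) :
    Vis N M r (256 ^ (j + 2) + o) := by
  have hM : 0 < M := by omega
  have hpow : 256 ^ (j + 2) = 256 * 256 ^ (j + 1) := by ring
  have hpow3 : 256 ^ (j + 3) = 65536 * 256 ^ (j + 1) := by ring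
  have hpos : 0 < 256 ^ (j + 1) := by positivity
  have hpow0 : 256 ^ (j + 1) = 256 * 256 ^ j := by ring
  set K := 256 ^ (j + 1) with hK
  set e := par (j + 1) with he
  have he1 : par (j + 2) = e + 1 := par_succ _
  refine ⟨e, 3 + 4 * (255 * K) + M * o + PP M e (K - 1), ?_, fun x => ?_⟩
  · have := PP_mono (M := M) (e := e) (show K - 1 ≤ K by omega)
    omega
  set ω := sh^[K - 1] (sq x) with hω
  have h0 : (ω 0).1 ≠ e := by
    rw [hω, sh_iterate]
    show th _ ≠ _
    rw [th_eq (j := j) (by omega) (by omega), he, par_succ]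
    exact (fin2_add_ne _).symm
  have hshω : sh ω = sh^[K] (sq x) := by
    rw [hω, ← Function.iterate_succ_apply' sh]
    congr 2
    omega
  have hrl : rl e (sh ω) = 255 * K := by
    apply rl_eq
    · intro i hi
      rw [hshω, sh_iterate]
      show th _ = _
      exact th_eq (by omega) (by rw [hpow]; omega)
    · rw [hshω, sh_iterate]
      show th _ ≠ _
      rw [th_eq (j := j + 2) (by omega) (by rw [hpow3]; omega), he1]
      exact fin2_add_ne _
  have hlsrc : lsrc M e ω (3 + 4 * (255 * K) + M * o) = (x (256 ^ (j + 2) + o) : ℕ) + 1 := by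
    have h1 := lsrc_val (M := M) hM h0 (o := o) (by rw [hrl]; omega)
    rw [hrl] at h1
    rw [h1]
    have h2 : ∀ i, i < 255 * K → ((sh ω) i).1 ≠ e + 1 := by
      intro i hi
      rw [hshω, sh_iterate]
      show th _ ≠ _
      rw [th_eq (j := j + 1) (by omega) (by rw [hpow]; omega)]
      exact (fin2_add_ne _).symm
    rw [dir_run_ne hM h2]
    have h3 : sh^[255 * K] (sh ω) = sh^[256 ^ (j + 2)] (sq x) := by
      rw [hshω, ← Function.iterate_add_apply, show 255 * K + K = 256 ^ (j + 2) by rw [hpow]; ring]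
    rw [h3]
    have h4 : ∀ i, i < o → ((sh^[256 ^ (j + 2)] (sq x)) i).1 = e + 1 := by
      intro i hi
      rw [sh_iterate]
      show th _ = _
      rw [th_eq (j := j + 2) (by omega) (by rw [hpow3]; omega), he1]
    have h5 := dir_run_eq hM h4 0
    rw [add_zero] at h5
    rw [h5, ← Function.iterate_add_apply]
    have h6 : ((sh^[o + 256 ^ (j + 2)] (sq x)) 0).1 = e + 1 := by
      rw [sh_iterate]
      show th _ = _
      rw [th_eq (j := j + 2) (by omega) (by rw [hpow3]; omega), he1]
    rw [dir_zero hM h6, sh_iterate, zero_add]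
    show ((x (o + 256 ^ (j + 2)) : ℕ)) + 1 = _
    rw [add_comm o]
  have hlk : lk M e (3 + 4 * (255 * K) + M * o) ω = (x (256 ^ (j + 2) + o) : ℕ) + 1 := by
    obtain ⟨p, hp⟩ : ∃ p, 3 + 4 * (255 * K) + M * o = p + 2 := ⟨1 + 4 * (255 * K) + M * o, by omega⟩
    rw [hp] at hlsrc ⊢
    rw [lk_ne_add hM h0, no_coll hM8 (by rw [hlsrc]; omega), add_zero, hlsrc]
  have htr := lk_transport (M := M) (e := e) (ω := sq x) hM8 (q := 3 + 4 * (255 * K) + M * o)
    (n := K - 1) (by rw [← hω, hlk]; omega)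
  rw [← hω, hlk, PW_sq] at htr
  rw [arr_of_lk hM hM2 (by rw [htr]; omega), htr]

omit hM8 hM2 in
lemma card_four {T n1 n2 n3 n4 : ℕ} (h1 : n1 ≤ 255 * T) (h2 : n2 ≤ 65280 * T)
    (h3 : n3 ≤ 16711680 * T) :
    #(((Ico T (T + n1) ∪ Ico (256 * T) (256 * T + n2)) ∪ Ico (65536 * T) (65536 * T + n3)) ∪
      Ico (16777216 * T) (16777216 * T + n4)) = n1 + n2 + n3 + n4 := by
  rw [Finset.card_union_of_disjoint, Finset.card_union_of_disjoint, Finset.card_union_of_disjoint]
  · simp
  · rw [Finset.disjoint_left]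
    intro a ha hb
    rw [Finset.mem_Ico] at ha hb
    omega
  · rw [Finset.disjoint_left]
    intro a ha hb
    rw [Finset.mem_union, Finset.mem_Ico, Finset.mem_Ico] at ha
    rw [Finset.mem_Ico] at hb
    omega
  · rw [Finset.disjoint_left]
    intro a ha hb
    rw [Finset.mem_union, Finset.mem_union, Finset.mem_Ico, Finset.mem_Ico, Finset.mem_Ico] at ha
    rw [Finset.mem_Ico] at hb
    omega

/-- many digits are visible at every level -/
lemma many_visible (hM : M = 67108864) {r : ℕ} (hr : 256 * M ≤ r) :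
    ∃ S : Finset ℕ, (∀ n ∈ S, Vis N M r n) ∧ 29 * (r / M) ≤ 10 * #S := by
  set x := r / M with hx
  have hMx : M * x ≤ r := Nat.mul_div_le r M
  have hx256 : 256 ≤ x := (Nat.le_div_iff_mul_le (by omega)).2 (by omega)
  set j := Nat.log 256 x - 1 with hj
  have hlog : 1 ≤ Nat.log 256 x := by
    apply Nat.le_log_of_pow_le (by norm_num) (by simpa using hx256)
  have hj1 : j + 1 = Nat.log 256 x := by omega
  set T := 256 ^ j with hT
  have hT1 : 1 ≤ T := Nat.one_le_pow _ _ (by norm_num)
  have p1 : 256 ^ (j + 1) = 256 * T := by rw [hT]; ring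
  have p2 : 256 ^ (j + 2) = 65536 * T := by rw [hT]; ring
  have p3 : 256 ^ (j + 3) = 16777216 * T := by rw [hT]; ring
  have p4 : 256 ^ (j + 4) = 4294967296 * T := by rw [hT]; ring
  have hxlo : 256 * T ≤ x := by
    rw [← p1, hj1]
    exact Nat.pow_log_le_self 256 (by omega)
  have hxhi : x < 65536 * T := by
    rw [← p2, show j + 2 = (Nat.log 256 x) + 1 by omega]
    exact Nat.lt_pow_succ_log_self (by norm_num) x
  -- positions
  have e1 : PP M (par j) (256 ^ j) ≤ M * T := PP_le (by omega) _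
  have e2 : PP M (par (j + 1)) (256 ^ (j + 1)) ≤ M * T + 512 * T := by
    have := PP_par (M := M) (by omega) j
    rw [p1] at this ⊢
    rw [← hT] at this
    omega
  have e3 : PP M (par (j + 2)) (256 ^ (j + 2)) ≤ M * (256 * T) + 131072 * T := by
    have := PP_par (M := M) (by omega) (j + 1)
    rw [show j + 1 + 1 = j + 2 by ring, p2, p1] at this
    rw [p2]
    omega
  rw [hM] at hMx e1 e2 e3
  -- the four families
  have v1 : ∀ o, o < 255 * T → Vis N M r (T + o) := by
    intro o ho
    apply vis_direct hM8 hM2 (j := j)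
    · rw [p1, ← hT]; omega
    · rw [hM]; rw [hM] at *; omega
  have v2 : ∀ o, o < 65280 * T → o + 2 * T < x → Vis N M r (256 * T + o) := by
    intro o ho ho'
    rw [← p1]
    apply vis_direct hM8 hM2 (j := j + 1)
    · rw [p1, p2]; omega
    · rw [hM]; rw [hM] at *; omega
  have v3 : ∀ o, o + 257 * T < x → Vis N M r (65536 * T + o) := by
    intro o ho'
    rw [← p2]
    apply vis_direct hM8 hM2 (j := j + 2)
    · rw [p2, p3]; omega
    · rw [hM]; rw [hM] at *; omega
  have v3' : ∀ o, o < 8160 * T → o + 2 * T < x → Vis N M r (65536 * T + o) := by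
    intro o ho ho'
    rw [← p2]
    apply vis_leak hM8 hM2 (j := j)
    · rw [p1]; omega
    · rw [p1] at *; rw [hM]; rw [hM] at *; omega
  have v4 : ∀ o, o + 258 * T < x → Vis N M r (16777216 * T + o) := by
    intro o ho'
    rw [← p3]
    apply vis_leak hM8 hM2 (j := j + 1)
    · rw [show j + 1 + 1 = j + 2 by ring, p2]; omega
    · rw [show j + 1 + 1 = j + 2 by ring, p2] at *; rw [hM]; rw [hM] at *; omega
  by_cases hcase : x ≤ 8162 * T
  · refine ⟨((Ico T (T + 255 * T) ∪ Ico (256 * T) (256 * T + (x - 2 * T))) ∪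
      Ico (65536 * T) (65536 * T + (x - 2 * T))) ∪
      Ico (16777216 * T) (16777216 * T + (x - 258 * T)), ?_, ?_⟩
    · intro n hn
      simp only [Finset.mem_union, Finset.mem_Ico] at hn
      rcases hn with ((hn | hn) | hn) | hn
      · obtain ⟨o, rfl⟩ := Nat.exists_eq_add_of_le hn.1
        exact v1 o (by omega)
      · obtain ⟨o, rfl⟩ := Nat.exists_eq_add_of_le hn.1
        exact v2 o (by omega) (by omega)
      · obtain ⟨o, rfl⟩ := Nat.exists_eq_add_of_le hn.1
        exact v3' o (by omega) (by omega)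
      · obtain ⟨o, rfl⟩ := Nat.exists_eq_add_of_le hn.1
        exact v4 o (by omega)
    · rw [card_four le_rfl (by omega) (by omega)]
      omega
  · refine ⟨((Ico T (T + 255 * T) ∪ Ico (256 * T) (256 * T + (min (65280 * T) (x - 2 * T)))) ∪
      Ico (65536 * T) (65536 * T + (x - 257 * T))) ∪
      Ico (16777216 * T) (16777216 * T + (x - 258 * T)), ?_, ?_⟩
    · intro n hn
      simp only [Finset.mem_union, Finset.mem_Ico] at hn
      rcases hn with ((hn | hn) | hn) | hn
      · obtain ⟨o, rfl⟩ := Nat.exists_eq_add_of_le hn.1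
        exact v1 o (by omega)
      · obtain ⟨o, rfl⟩ := Nat.exists_eq_add_of_le hn.1
        exact v2 o (by omega) (by omega)
      · obtain ⟨o, rfl⟩ := Nat.exists_eq_add_of_le hn.1
        exact v3 o (by omega)
      · obtain ⟨o, rfl⟩ := Nat.exists_eq_add_of_le hn.1
        exact v4 o (by omega)
    · rw [card_four le_rfl (by omega) (by omega)]
      omega

end visible

end Pool.Agent.PlanarGap
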