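import Mathlib
import Pool.Agent.MP_b109da_an.System
import Pool.Agent.MP_b109da_an.Visible

/-! Lower bound for the dimension of the repeller. -/

namespace Pool.Agent.PlanarGap

open Finset MeasureTheory Filter Topology NNReal ENNReal

section

variable {N M b : ℕ} (hb : 4 * (N + 1) ≤ b) (hM8 : 8 ≤ M) (hM2 : M % 2 = 0)

/-- uniform product measure on digit sequences -/
noncomputable def PM (N : ℕ) [NeZero N] : Measure (ℕ → Fin N) :=
  Measure.infinitePi (fun _ => (PMF.uniformOfFintype (Fin N)).toMeasure)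

instance (N : ℕ) [NeZero N] : IsProbabilityMeasure (PM N) := by
  unfold PM; infer_instance

lemma PM_cyl [NeZero N] (S : Finset ℕ) (y : ℕ → Fin N) :
    PM N {x | ∀ n ∈ S, x n = y n} = ((N : ℝ≥0∞)⁻¹) ^ #S := by
  have h1 : {x : ℕ → Fin N | ∀ n ∈ S, x n = y n} = Set.pi S (fun n => {y n}) := by
    ext x; simp [Set.mem_pi]
  rw [h1]
  unfold PM
  rw [Measure.infinitePi_pi _ (fun i _ => measurableSet_singleton _)]
  have h2 : ∀ i ∈ S, (PMF.uniformOfFintype (Fin N)).toMeasure {y i} = (N : ℝ≥0∞)⁻¹ := by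
    intro i _
    rw [PMF.toMeasure_apply_singleton _ _ (measurableSet_singleton _), PMF.uniformOfFintype_apply,
      Fintype.card_fin]
  rw [Finset.prod_congr rfl h2, Finset.prod_const]

lemma sq_cont : Continuous (sq : (ℕ → Fin N) → Sq N) := by
  apply continuous_pi
  intro n
  exact continuous_const.prodMk (continuous_apply n)

include hb hM8 hM2 in
lemma cod_sq_cont : Continuous (fun x : ℕ → Fin N => cod b M (sq x)) := by
  refine (PiLp.continuous_toLp 2 _).comp ?_
  exact continuous_pi fun e => (Z_continuous hb hM8 hM2 e).comp sq_cont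

/-- natural number inequality used for the mass distribution -/
lemma nat_bound (hM0 : 2 ≤ M) (hbN : b = 8 * N) (hN : 8 ^ 20 ≤ N) {r s : ℕ}
    (hx : 256 ≤ r / M) (hs : 29 * (r / M) ≤ 10 * s) :
    (2 * b ^ (r + 2)) ^ 100 ≤ (N ^ s) ^ (40 * M) := by
  set x := r / M with hxd
  have hN1 : 1 ≤ N := le_trans (Nat.one_le_pow _ _ (by norm_num)) hN
  have hb1 : 2 ≤ b := by omega
  have hr : r < M * (x + 1) := by
    have := Nat.lt_mul_div_succ r (show 0 < M by omega)
    exact this
  have h20 : b ^ 20 ≤ N ^ 21 := by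
    rw [hbN, mul_pow, pow_succ N 20, mul_comm (N ^ 20) N]
    exact Nat.mul_le_mul_right _ hN
  calc (2 * b ^ (r + 2)) ^ 100 ≤ (b * b ^ (r + 2)) ^ 100 := by gcongr
    _ = b ^ ((r + 3) * 100) := by rw [← pow_succ', ← pow_mul]
    _ ≤ b ^ ((M * (x + 2)) * 100) := by
        apply Nat.pow_le_pow_right (by omega)
        apply Nat.mul_le_mul_right
        have : M * (x + 2) = M * (x + 1) + M := by ring
        omega
    _ = (b ^ 20) ^ (5 * (M * (x + 2))) := by rw [← pow_mul]; congr 1; ring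
    _ ≤ (N ^ 21) ^ (5 * (M * (x + 2))) := Nat.pow_le_pow_left h20 _
    _ = N ^ (105 * (M * (x + 2))) := by rw [← pow_mul]; congr 1; ring
    _ ≤ N ^ (s * (40 * M)) := by
        apply Nat.pow_le_pow_right hN1
        have h1 : M * (105 * (x + 2)) ≤ M * (40 * s) := Nat.mul_le_mul_left _ (by omega)
        calc 105 * (M * (x + 2)) = M * (105 * (x + 2)) := by ring
          _ ≤ M * (40 * s) := h1
          _ = s * (40 * M) := by ring
    _ = (N ^ s) ^ (40 * M) := by rw [← pow_mul]

/-- real form -/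
lemma real_bound (hM0 : 2 ≤ M) (hbN : b = 8 * N) (hN : 8 ^ 20 ≤ N) {r s : ℕ}
    (hx : 256 ≤ r / M) (hs : 29 * (r / M) ≤ 10 * s) {d : ℝ} (hd : d = 5 / (2 * (M : ℝ))) :
    ((N : ℝ≥0∞)⁻¹) ^ s ≤ ENNReal.ofReal (1 / (2 * (b : ℝ) ^ (r + 2))) ^ d := by
  have hN0 : 0 < N := by
    have : 1 ≤ 8 ^ 20 := Nat.one_le_pow _ _ (by norm_num)
    omega
  have hb0 : (0 : ℝ) < b := by
    have : 0 < b := by omega
    exact_mod_cast this
  have hNr : (0 : ℝ) < N := by exact_mod_cast hN0
  have hMr : (0 : ℝ) < M := by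
    have : 0 < M := by omega
    exact_mod_cast this
  have hd0 : 0 < d := by rw [hd]; positivity
  have hnat : ((2 * (b : ℝ) ^ (r + 2))) ^ 100 ≤ ((N : ℝ) ^ s) ^ (40 * M) := by
    exact_mod_cast nat_bound hM0 hbN hN hx hs
  have h1 : (2 * (b : ℝ) ^ (r + 2)) ^ d ≤ (N : ℝ) ^ s := by
    have h2 : ((2 * (b : ℝ) ^ (r + 2)) ^ d) ^ (40 * M) = (2 * (b : ℝ) ^ (r + 2)) ^ 100 := by
      have h3 : ((2 * (b : ℝ) ^ (r + 2)) ^ d) ^ (40 * M) =
          (2 * (b : ℝ) ^ (r + 2)) ^ (d * ((40 * M : ℕ) : ℝ)) := by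
        rw [← Real.rpow_natCast, ← Real.rpow_mul (by positivity)]
      have h4 : d * ((40 * M : ℕ) : ℝ) = ((100 : ℕ) : ℝ) := by
        rw [hd]
        push_cast
        field_simp
        norm_num
      rw [h3, h4, Real.rpow_natCast]
    rw [← h2] at hnat
    exact (pow_le_pow_iff_left₀ (by positivity) (by positivity) (by omega)).1 hnat
  rw [ENNReal.ofReal_rpow_of_nonneg (by positivity) hd0.le, Real.div_rpow (by norm_num) (by positivity),
    Real.one_rpow]
  have h3 : ((N : ℝ≥0∞)⁻¹) ^ s = ENNReal.ofReal (1 / (N : ℝ) ^ s) := by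
    rw [← ENNReal.ofReal_natCast, ← ENNReal.ofReal_inv_of_pos hNr, ← ENNReal.ofReal_pow (by positivity)]
    congr 1
    rw [one_div, inv_pow]
  rw [h3]
  apply ENNReal.ofReal_le_ofReal
  apply one_div_le_one_div_of_le (by positivity) h1

include hb hM8 hM2 in
/-- measure of a small set -/
lemma small_set [NeZero N] (hM : M = 67108864) {r : ℕ} (hr : 256 * M ≤ r) {s : Set Pl}
    (hs : MeasurableSet s) (hd : Metric.ediam s < ENNReal.ofReal (1 / (2 * (b : ℝ) ^ r))) :
    ∃ c : ℕ, 29 * (r / M) ≤ 10 * c ∧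
      (PM N).map (fun x => cod b M (sq x)) s ≤ ((N : ℝ≥0∞)⁻¹) ^ c := by
  obtain ⟨S, hS, hc⟩ := many_visible (N := N) hM8 hM2 hM hr
  refine ⟨#S, hc, ?_⟩
  rw [Measure.map_apply (cod_sq_cont hb hM8 hM2).measurable hs]
  rcases Set.eq_empty_or_nonempty ((fun x : ℕ → Fin N => cod b M (sq x)) ⁻¹' s) with h | ⟨y, hy⟩
  · rw [h, measure_empty]; exact zero_le
  · rw [← PM_cyl S y]
    apply measure_mono
    intro x hx n hn
    obtain ⟨e, q, hq, hv⟩ := hS n hn
    have h1 : edist (cod b M (sq x)) (cod b M (sq y)) < ENNReal.ofReal (1 / (2 * (b : ℝ) ^ r)) :=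
      lt_of_le_of_lt (Metric.edist_le_ediam_of_mem hx hy) hd
    rw [edist_dist] at h1
    have h2 : dist (cod b M (sq x)) (cod b M (sq y)) < 1 / (2 * (b : ℝ) ^ r) :=
      (ENNReal.ofReal_lt_ofReal_iff_of_nonneg dist_nonneg).1 h1
    have h3 := arr_eq_of_dist hb hM8 hM2 h2 e hq
    rw [hv, hv] at h3
    apply Fin.ext
    omega

include hb hM8 hM2 in
/-- lower bound for the dimension of the repeller -/
lemma lower (hM : M = 67108864) (hbN : b = 8 * N) (hN : 8 ^ 20 ≤ N) :
    ((5 / (2 * (M : ℝ≥0)) : ℝ≥0) : ℝ≥0∞) ≤ dimH (XX N b M) := by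
  have hN0 : 0 < N := by
    have : 1 ≤ 8 ^ 20 := Nat.one_le_pow _ _ (by norm_num)
    omega
  have : NeZero N := ⟨by omega⟩
  have hb0 := b_pos hb
  have hb4 := b_ge4 hb
  set d : ℝ≥0 := 5 / (2 * (M : ℝ≥0)) with hd
  have hdr : (d : ℝ) = 5 / (2 * (M : ℝ)) := by rw [hd]; push_cast; rfl
  have hMr : (0:ℝ) < M := by
    have : 0 < M := by omega
    exact_mod_cast this
  have hd0 : (0:ℝ) < d := by rw [hdr]; positivity
  set ν := (PM N).map (fun x => cod b M (sq x)) with hν
  set R0 := 256 * M with hR0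
  have hkey : ∀ r, R0 ≤ r → ∀ s : Set Pl, MeasurableSet s →
      Metric.ediam s < ENNReal.ofReal (1 / (2 * (b : ℝ) ^ r)) →
      ν s ≤ ENNReal.ofReal (1 / (2 * (b : ℝ) ^ (r + 2))) ^ (d : ℝ) := by
    intro r hr s hs hds
    obtain ⟨c, hc, hle⟩ := small_set hb hM8 hM2 hM hr hs hds
    refine hle.trans ?_
    apply real_bound (by omega) hbN hN _ hc hdr
    exact (Nat.le_div_iff_mul_le (by omega)).2 hr
  have hle : ν ≤ μH[(d : ℝ)] := by
    apply Measure.le_hausdorffMeasure (d : ℝ) ν (ENNReal.ofReal (1 / (2 * (b : ℝ) ^ (R0 + 2))))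
    · rw [ENNReal.ofReal_pos]; positivity
    · intro s hs
      have hcl : Metric.ediam (closure s) = Metric.ediam s := Metric.ediam_closure s
      refine (measure_mono subset_closure).trans ?_
      rw [← hcl] at hs ⊢
      have hms : MeasurableSet (closure s) := isClosed_closure.measurableSet
      set t := closure s with ht
      rcases eq_or_ne (Metric.ediam t) 0 with h0 | h0
      · -- zero diameter
        have h1 : ν t = 0 := by
          have h2 : ∀ n : ℕ, ν t ≤ ENNReal.ofReal (1 / (2 * (b : ℝ) ^ (n + R0 + 2))) ^ (d : ℝ) := by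
            intro n
            apply hkey (n + R0) (by omega) t hms
            rw [h0, ENNReal.ofReal_pos]; positivity
          have h3 : Tendsto (fun n : ℕ => ENNReal.ofReal (1 / (2 * (b : ℝ) ^ (n + R0 + 2))) ^ (d : ℝ))
              atTop (𝓝 0) := by
            have h4 : Tendsto (fun n : ℕ => ENNReal.ofReal (1 / (2 * (b : ℝ) ^ (n + R0 + 2)))) atTop
                (𝓝 0) := by
              rw [← ENNReal.ofReal_zero]
              apply ENNReal.tendsto_ofReal
              have h5 : Tendsto (fun n : ℕ => ((b : ℝ)⁻¹) ^ n) atTop (𝓝 0) :=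
                _root_.tendsto_pow_atTop_nhds_zero_of_lt_one (by positivity)
                  (inv_lt_one_of_one_lt₀ (by linarith))
              have h6 := h5.const_mul (1 / (2 * (b : ℝ) ^ (R0 + 2)))
              rw [mul_zero] at h6
              refine h6.congr fun n => ?_
              rw [inv_pow, add_assoc, pow_add]
              field_simp
              ring
            have h5 := (ENNReal.continuous_rpow_const (y := (d : ℝ))).continuousAt.tendsto.comp h4
            rw [ENNReal.zero_rpow_of_pos hd0] at h5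
            exact h5
          exact le_antisymm (ge_of_tendsto' h3 h2) zero_le
        rw [h1]; exact zero_le
      · -- positive diameter
        have htop : Metric.ediam t ≠ ⊤ := ne_top_of_le_ne_top ENNReal.ofReal_ne_top hs
        set δ := (Metric.ediam t).toReal with hδ
        have hδ0 : 0 < δ := ENNReal.toReal_pos h0 htop
        have hδe : Metric.ediam t = ENNReal.ofReal δ := (ENNReal.ofReal_toReal htop).symm
        have hδle : δ ≤ 1 / (2 * (b : ℝ) ^ (R0 + 2)) := by
          rw [hδe] at hs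
          exact (ENNReal.ofReal_le_ofReal_iff (by positivity)).1 hs
        have hinv : (b : ℝ)⁻¹ < 1 := inv_lt_one_of_one_lt₀ (by linarith)
        have hinv0 : 0 < (b : ℝ)⁻¹ := by positivity
        have h2δ : 2 * δ ≤ ((b : ℝ)⁻¹) ^ (R0 + 2) := by
          rw [inv_pow]
          calc 2 * δ ≤ 2 * (1 / (2 * (b : ℝ) ^ (R0 + 2))) := by linarith
            _ = ((b : ℝ) ^ (R0 + 2))⁻¹ := by field_simp
        have h2δ1 : 2 * δ ≤ 1 := h2δ.trans (pow_le_one₀ hinv0.le hinv.le)
        obtain ⟨n, hn1, hn2⟩ := exists_nat_pow_near_of_lt_one (show 0 < 2 * δ by positivity) h2δ1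
          hinv0 hinv
        have hnR : R0 + 2 < n + 1 := by
          by_contra hc
          push Not at hc
          have := pow_le_pow_of_le_one hinv0.le hinv.le hc
          linarith
        obtain ⟨r, rfl⟩ : ∃ r, n = r + 1 := ⟨n - 1, by omega⟩
        have hr : R0 ≤ r := by omega
        have hlt : Metric.ediam t < ENNReal.ofReal (1 / (2 * (b : ℝ) ^ r)) := by
          rw [hδe]
          apply (ENNReal.ofReal_lt_ofReal_iff (by positivity)).2
          have h7 : ((b : ℝ)⁻¹) ^ (r + 1) < ((b : ℝ)⁻¹) ^ r :=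
            pow_lt_pow_right_of_lt_one₀ hinv0 hinv (by omega)
          rw [inv_pow (b : ℝ) r] at h7
          have h8 : 1 / (2 * (b : ℝ) ^ r) = ((b : ℝ) ^ r)⁻¹ / 2 := by field_simp
          rw [h8]
          linarith
        refine (hkey r hr t hms hlt).trans ?_
        apply ENNReal.rpow_le_rpow _ hd0.le
        rw [hδe]
        apply ENNReal.ofReal_le_ofReal
        rw [inv_pow] at hn1
        have h8 : 1 / (2 * (b : ℝ) ^ (r + 2)) = ((b : ℝ) ^ (r + 1 + 1))⁻¹ / 2 := by
          rw [show r + 1 + 1 = r + 2 by ring]; field_simp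
        rw [h8]
        linarith
  have hX : ν (XX N b M) = 1 := by
    have hm : MeasurableSet (XX N b M) := (XX_compact hb hM8 hM2).isClosed.measurableSet
    rw [hν, Measure.map_apply (cod_sq_cont hb hM8 hM2).measurable hm]
    have : (fun x : ℕ → Fin N => cod b M (sq x)) ⁻¹' (XX N b M) = Set.univ := by
      ext x
      simp only [Set.mem_preimage, Set.mem_univ, iff_true]
      exact ⟨sq x, rfl⟩
    rw [this, measure_univ]
  apply le_dimH_of_hausdorffMeasure_ne_zero
  intro h0
  have := hle (XX N b M)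
  rw [h0, hX] at this
  exact absurd this (by simp)

end

end Pool.Agent.PlanarGap
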