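import Mathlib

/-! A recurrence lemma: for an invariant probability measure and a two-valued observable, long
constancy intervals starting at a change within a proportional window are unlikely. -/

namespace Pool.Agent.PlanarGap

open MeasureTheory Filter Set Topology

variable {X : Type*} [MeasurableSpace X] {μ : Measure X} [IsProbabilityMeasure μ] {T : X → X}
  {ty : X → Fin 2}

/-- bad set: a run of length more than `ρ` starts at some time `k ∈ [1, K ρ]` -/
def Bad (T : X → X) (ty : X → Fin 2) (K ρ : ℕ) : Set X :=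
  {x | ∃ k, 1 ≤ k ∧ k ≤ K * ρ ∧ ty (T^[k - 1] x) ≠ ty (T^[k] x) ∧
    ∀ j, j ≤ ρ → ty (T^[k + j] x) = ty (T^[k] x)}

/-- the type is constant up to time `n` -/
def EE (T : X → X) (ty : X → Fin 2) (n : ℕ) : Set X := {x | ∀ i, i ≤ n → ty (T^[i] x) = ty x}

/-- the type is constant forever -/
def Einf (T : X → X) (ty : X → Fin 2) : Set X := {x | ∀ i, ty (T^[i] x) = ty x}

lemma meas_eq (hT : Measurable T) (hty : Measurable ty) (i j : ℕ) :
    MeasurableSet {x | ty (T^[i] x) = ty (T^[j] x)} :=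
  measurableSet_eq_fun (hty.comp (hT.iterate i)) (hty.comp (hT.iterate j))

lemma EE_meas (hT : Measurable T) (hty : Measurable ty) (n : ℕ) : MeasurableSet (EE T ty n) := by
  have : EE T ty n = ⋂ i, ⋂ (_ : i ≤ n), {x | ty (T^[i] x) = ty (T^[0] x)} := by
    ext x; simp [EE]
  rw [this]
  exact MeasurableSet.iInter fun i => MeasurableSet.iInter fun _ => meas_eq hT hty i 0

lemma Einf_meas (hT : Measurable T) (hty : Measurable ty) : MeasurableSet (Einf T ty) := by
  have : Einf T ty = ⋂ i, {x | ty (T^[i] x) = ty (T^[0] x)} := by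
    ext x; simp [Einf]
  rw [this]
  exact MeasurableSet.iInter fun i => meas_eq hT hty i 0

lemma Bad_meas (hT : Measurable T) (hty : Measurable ty) (K ρ : ℕ) :
    MeasurableSet (Bad T ty K ρ) := by
  have : Bad T ty K ρ = ⋃ k, ⋃ (_ : 1 ≤ k), ⋃ (_ : k ≤ K * ρ),
      ({x | ty (T^[k - 1] x) = ty (T^[k] x)}ᶜ ∩
        ⋂ j, ⋂ (_ : j ≤ ρ), {x | ty (T^[k + j] x) = ty (T^[k] x)}) := by
    ext x
    simp only [Bad, mem_ofPred_eq, mem_iUnion, mem_inter_iff, mem_compl_iff, mem_iInter, exists_prop,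
      ne_eq]
  rw [this]
  refine MeasurableSet.iUnion fun k => MeasurableSet.iUnion fun _ => MeasurableSet.iUnion fun _ => ?_
  exact (meas_eq hT hty _ _).compl.inter
    (MeasurableSet.iInter fun j => MeasurableSet.iInter fun _ => meas_eq hT hty _ _)

lemma Einf_step {x : X} (h : x ∈ Einf T ty) : T x ∈ Einf T ty := by
  intro i
  have h1 := h (i + 1)
  have h2 := h 1
  rw [Function.iterate_succ_apply] at h1
  rw [Function.iterate_one] at h2
  rw [h1, h2]

/-- the null set of points entering `Einf` -/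
def Nul (T : X → X) (ty : X → Fin 2) : Set X :=
  ⋃ k : ℕ, ((T^[k + 1]) ⁻¹' (Einf T ty) \ (T^[k]) ⁻¹' (Einf T ty))

lemma Nul_null (hT : MeasurePreserving T μ μ) (hty : Measurable ty) : μ (Nul T ty) = 0 := by
  have hE := Einf_meas hT.measurable hty
  unfold Nul
  rw [measure_iUnion_null_iff]
  intro k
  have hsub : (T^[k]) ⁻¹' (Einf T ty) ⊆ (T^[k + 1]) ⁻¹' (Einf T ty) := by
    intro x hx
    show T^[k + 1] x ∈ Einf T ty
    rw [Function.iterate_succ_apply']
    exact Einf_step hx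
  rw [measure_sdiff hsub ((hT.measurable.iterate k) hE).nullMeasurableSet (measure_ne_top _ _),
    (hT.iterate (k + 1)).measure_preimage hE.nullMeasurableSet,
    (hT.iterate k).measure_preimage hE.nullMeasurableSet, tsub_self]

lemma FF_tendsto (hT : Measurable T) (hty : Measurable ty) :
    Tendsto (fun n => μ (EE T ty n \ Einf T ty)) atTop (𝓝 0) := by
  have h1 : ⋂ n, (EE T ty n \ Einf T ty) = ∅ := by
    ext x
    simp only [mem_iInter, Set.mem_sdiff, mem_empty_iff_false, iff_false]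
    intro h
    apply (h 0).2
    intro i
    exact (h i).1 i le_rfl
  have h2 : Tendsto (fun n => μ (EE T ty n \ Einf T ty)) atTop
      (𝓝 (μ (⋂ n, (EE T ty n \ Einf T ty)))) := by
    apply tendsto_measure_iInter_atTop
    · intro n
      exact ((EE_meas hT hty n).diff (Einf_meas hT hty)).nullMeasurableSet
    · intro m n hmn x hx
      exact ⟨fun i hi => hx.1 i (hi.trans hmn), hx.2⟩
    · exact ⟨0, measure_ne_top _ _⟩
  rwa [h1, measure_empty] at h2

open Classical in
/-- number of visits -/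
noncomputable def vis (T : X → X) (A : Set X) (n : ℕ) (x : X) : ENNReal :=
  ∑ s ∈ Finset.range n, A.indicator (fun _ => (1 : ENNReal)) (T^[s] x)

lemma lintegral_vis (hT : MeasurePreserving T μ μ) {A : Set X} (hA : MeasurableSet A) (n : ℕ) :
    ∫⁻ x, vis T A n x ∂μ = n * μ A := by
  unfold vis
  rw [lintegral_finsetSum]
  · have : ∀ s ∈ Finset.range n, ∫⁻ x, A.indicator (fun _ => (1 : ENNReal)) (T^[s] x) ∂μ = μ A := by
      intro s _
      rw [(hT.iterate s).lintegral_comp (f := A.indicator (fun _ => (1 : ENNReal)))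
        (measurable_const.indicator hA), lintegral_indicator hA]
      simp
    rw [Finset.sum_congr rfl this]
    simp
  · intro s _
    exact (measurable_const.indicator hA).comp (hT.measurable.iterate s)

lemma Bad_subset {K ρ : ℕ} {x : X} (hx : x ∈ Bad T ty K ρ) (hn : x ∉ Nul T ty) :
    ((ρ / 2 + 1 : ℕ) : ENNReal) ≤ vis T (EE T ty (ρ / 2) \ Einf T ty) ((K + 1) * ρ + 1) x := by
  obtain ⟨k, hk1, hk2, hne, hconst⟩ := hx
  have hk : T^[k] x ∉ Einf T ty := by
    intro hin
    have h1 : T^[k - 1] x ∈ Einf T ty := by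
      by_contra hc
      apply hn
      refine mem_iUnion.2 ⟨k - 1, ?_, hc⟩
      show T^[k - 1 + 1] x ∈ Einf T ty
      rwa [Nat.sub_add_cancel hk1]
    have h2 := h1 1
    rw [Function.iterate_one, ← Function.iterate_succ_apply' T (k - 1) x] at h2
    have h3 : (k - 1).succ = k := by omega
    rw [h3] at h2
    exact hne h2.symm
  have hmem : ∀ i, i ≤ ρ / 2 → T^[k + i] x ∈ EE T ty (ρ / 2) \ Einf T ty := by
    intro i hi
    constructor
    · intro l hl
      rw [← Function.iterate_add_apply]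
      rw [show l + (k + i) = k + (l + i) by ring, hconst (l + i) (by omega), hconst i (by omega)]
    · intro hin
      apply hk
      intro m
      rw [← Function.iterate_add_apply]
      rcases le_or_gt m i with h | h
      · rw [add_comm m k]; exact hconst m (by omega)
      · have h1 := hin (m - i)
        rw [← Function.iterate_add_apply, show m - i + (k + i) = m + k by omega] at h1
        rw [h1, hconst i (by omega)]
  unfold vis
  have hsub : (Finset.range (ρ / 2 + 1)).map (addLeftEmbedding k) ⊆ Finset.range ((K + 1) * ρ + 1) := by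
    intro s hs
    simp only [Finset.mem_map, Finset.mem_range, addLeftEmbedding_apply] at hs
    obtain ⟨i, hi, rfl⟩ := hs
    rw [Finset.mem_range]
    have : (K + 1) * ρ = K * ρ + ρ := by ring
    omega
  refine le_trans ?_ (Finset.sum_le_sum_of_subset hsub)
  rw [Finset.sum_map]
  have : ∀ i ∈ Finset.range (ρ / 2 + 1), (EE T ty (ρ / 2) \ Einf T ty).indicator
      (fun _ => (1 : ENNReal)) (T^[addLeftEmbedding k i] x) = 1 := by
    intro i hi
    rw [addLeftEmbedding_apply, indicator_of_mem (hmem i (by simpa [Nat.lt_succ_iff] using hi))]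
  rw [Finset.sum_congr rfl this]
  simp

lemma Bad_measure_le (hT : MeasurePreserving T μ μ) (hty : Measurable ty) (K ρ : ℕ) :
    μ (Bad T ty K ρ) ≤ (2 * (K + 1) : ℕ) * μ (EE T ty (ρ / 2) \ Einf T ty) := by
  have hA : MeasurableSet (EE T ty (ρ / 2) \ Einf T ty) :=
    (EE_meas hT.measurable hty _).diff (Einf_meas hT.measurable hty)
  have h1 : μ (Bad T ty K ρ) ≤ μ {x | ((ρ / 2 + 1 : ℕ) : ENNReal) ≤
      vis T (EE T ty (ρ / 2) \ Einf T ty) ((K + 1) * ρ + 1) x} := by
    have h2 : Bad T ty K ρ ⊆ {x | ((ρ / 2 + 1 : ℕ) : ENNReal) ≤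
      vis T (EE T ty (ρ / 2) \ Einf T ty) ((K + 1) * ρ + 1) x} ∪ Nul T ty := by
      intro x hx
      by_cases hn : x ∈ Nul T ty
      · exact Or.inr hn
      · exact Or.inl (Bad_subset hx hn)
    refine (measure_mono h2).trans ((measure_union_le _ _).trans ?_)
    rw [Nul_null hT hty, add_zero]
  have hvm : AEMeasurable (vis T (EE T ty (ρ / 2) \ Einf T ty) ((K + 1) * ρ + 1)) μ := by
    apply Measurable.aemeasurable
    unfold vis
    refine Finset.measurable_sum _ fun s _ => ?_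
    exact (measurable_const.indicator hA).comp (hT.measurable.iterate s)
  have h2 := mul_meas_ge_le_lintegral₀ hvm ((ρ / 2 + 1 : ℕ) : ENNReal)
  rw [lintegral_vis hT hA] at h2
  have h3 : (((K + 1) * ρ + 1 : ℕ) : ENNReal) ≤ ((2 * (K + 1) : ℕ) : ENNReal) * ((ρ / 2 + 1 : ℕ) : ENNReal) := by
    rw [← Nat.cast_mul]
    apply Nat.cast_le.2
    have h5 : ρ + 1 ≤ 2 * (ρ / 2 + 1) := by omega
    calc (K + 1) * ρ + 1 ≤ (K + 1) * (ρ + 1) := by rw [mul_add, mul_one]; omega
      _ ≤ (K + 1) * (2 * (ρ / 2 + 1)) := Nat.mul_le_mul_left _ h5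
      _ = 2 * (K + 1) * (ρ / 2 + 1) := by ring
  have h4 : ((ρ / 2 + 1 : ℕ) : ENNReal) * μ (Bad T ty K ρ) ≤
      ((ρ / 2 + 1 : ℕ) : ENNReal) * ((2 * (K + 1) : ℕ) * μ (EE T ty (ρ / 2) \ Einf T ty)) := by
    calc _ ≤ ((ρ / 2 + 1 : ℕ) : ENNReal) * _ := mul_le_mul_right h1 _
      _ ≤ (((K + 1) * ρ + 1 : ℕ) : ENNReal) * μ (EE T ty (ρ / 2) \ Einf T ty) := h2
      _ ≤ (((2 * (K + 1) : ℕ) : ENNReal) * ((ρ / 2 + 1 : ℕ) : ENNReal)) *
          μ (EE T ty (ρ / 2) \ Einf T ty) := by gcongr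
      _ = _ := by ring
  have h5 : ((ρ / 2 + 1 : ℕ) : ENNReal) ≠ 0 := by
    rw [Ne, Nat.cast_eq_zero]; omega
  exact (ENNReal.mul_le_mul_iff_right h5 (ENNReal.natCast_ne_top _)).1 h4

lemma Bad_tendsto (hT : MeasurePreserving T μ μ) (hty : Measurable ty) (K : ℕ) :
    Tendsto (fun ρ => μ (Bad T ty K ρ)) atTop (𝓝 0) := by
  have h1 := (FF_tendsto (μ := μ) hT.measurable hty).comp
    (Nat.tendsto_div_const_atTop (n := 2) (by norm_num))
  have h2 := ENNReal.Tendsto.const_mul (a := ((2 * (K + 1) : ℕ) : ENNReal)) h1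
    (Or.inr (ENNReal.natCast_ne_top _))
  rw [mul_zero] at h2
  exact tendsto_of_tendsto_of_tendsto_of_le_of_le tendsto_const_nhds h2 (fun _ => zero_le)
    (fun ρ => Bad_measure_le hT hty K ρ)

/-- there is a sequence of scales along which almost every point is eventually good -/
lemma exists_good_seq (hT : MeasurePreserving T μ μ) (hty : Measurable ty) (K : ℕ) :
    ∃ φ : ℕ → ℕ, StrictMono φ ∧ μ (⋃ J, ⋂ j, ⋂ (_ : J ≤ j), (Bad T ty K (φ j))ᶜ) = 1 := by
  have h1 : ∀ n : ℕ, ∀ᶠ ρ in atTop, μ (Bad T ty K ρ) ≤ (1 / 2 : ENNReal) ^ n := by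
    intro n
    have h := (Bad_tendsto hT hty K).eventually (gt_mem_nhds (show (0 : ENNReal) < (1 / 2) ^ n by
      apply ENNReal.pow_pos; norm_num))
    exact h.mono fun ρ h => h.le
  obtain ⟨φ, hφ, hφ'⟩ := extraction_forall_of_eventually h1
  refine ⟨φ, hφ, ?_⟩
  have hsum : ∑' j, μ (Bad T ty K (φ j)) ≠ ⊤ := by
    have h2 : ∑' j, μ (Bad T ty K (φ j)) ≤ ∑' j : ℕ, (1 / 2 : ENNReal) ^ j :=
      ENNReal.tsum_le_tsum hφ'
    have h3 : ∑' j : ℕ, (1 / 2 : ENNReal) ^ j ≠ ⊤ := by
      rw [ENNReal.tsum_geometric]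
      simp
    exact ne_top_of_le_ne_top h3 h2
  have h4 := ae_eventually_notMem hsum
  have h5 : (⋃ J, ⋂ j, ⋂ (_ : J ≤ j), (Bad T ty K (φ j))ᶜ) ∈ ae μ := by
    filter_upwards [h4] with x hx
    obtain ⟨J, hJ⟩ := eventually_atTop.1 hx
    simp only [mem_iUnion, mem_iInter, mem_compl_iff]
    exact ⟨J, fun j hj => hJ j hj⟩
  exact (measure_congr (eventuallyEq_univ.2 h5)).trans measure_univ

end Pool.Agent.PlanarGap
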