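import Mathlib
import Pool.Agent.MP_b109da_an.System
import Pool.Agent.MP_b109da_an.Count
import Pool.Agent.MP_b109da_an.Recur

/-! Upper bound for the dimension of invariant measures. -/

namespace Pool.Agent.PlanarGap

open Finset MeasureTheory Filter Topology NNReal ENNReal

/-- type of a point of the plane -/
noncomputable def tp (z : Pl) : Fin 2 := if 1 / 2 < z 0 then 0 else 1

lemma tp_meas : Measurable tp := by
  unfold tp
  apply Measurable.ite _ measurable_const measurable_const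
  exact measurableSet_lt measurable_const (by fun_prop)

section

variable {N M b : ℕ} (hb : 4 * (N + 1) ≤ b) (hM8 : 8 ≤ M) (hM2 : M % 2 = 0)

include hb hM8 hM2

lemma tp_cod (ω : Sq N) : tp (cod b M ω) = (ω 0).1 := by
  obtain ⟨h1, h2⟩ := cod_mem_W hb hM8 hM2 ω
  rw [abs_lt] at h1
  have h3 : (0:ℝ) ≤ ((ω 0).2 : ℕ) := by positivity
  unfold tp
  rcases Fin.exists_fin_two.1 ⟨(ω 0).1, rfl⟩ with h | h
  · rw [h] at h1
    rw [if_pos (by linarith [h1.1]), h]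
  · rw [h] at h2
    have h4 : (1 : Fin 2) + 1 = 0 := by decide
    rw [h4] at h2
    rw [if_neg (by linarith), h]

/-- the restricted map -/
noncomputable def TT : XX N b M → XX N b M := (ff_mapsTo hb hM8 hM2).restrict

lemma TT_iter (n : ℕ) (x : XX N b M) :
    (((TT hb hM8 hM2)^[n] x : XX N b M) : Pl) = (ff N b M)^[n] x := by
  induction n generalizing x with
  | zero => rfl
  | succ n ih => rw [Function.iterate_succ_apply, ih, Function.iterate_succ_apply]; rfl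

lemma good_gd {ρ : ℕ} {x : XX N b M} {ω : Sq N} (hx : cod b M ω = x)
    (h : x ∉ Bad (TT hb hM8 hM2) (fun y => tp y) (16 * M) ρ) : gd ρ (16 * M * ρ) ω := by
  have h1 : ∀ n, tp (((TT hb hM8 hM2)^[n] x : XX N b M) : Pl) = (ω n).1 := by
    intro n
    rw [TT_iter hb hM8 hM2, ← hx, ff_iterate_cod hb hM8 hM2, tp_cod hb hM8 hM2, sh_iterate, zero_add]
  intro k h2 h3 h4
  by_contra hc
  push Not at hc
  apply h
  refine ⟨k, h2, h3, ?_, ?_⟩
  · show tp _ ≠ tp _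
    rw [h1, h1]; exact h4
  · intro j hj
    show tp _ = tp _
    rw [h1, h1]; exact hc j hj

omit hM8 hM2 in
lemma num_bound (hbig : 2 * 4 ^ (16 * M) ≤ b ^ 2) (ρ : ℕ) :
    (4 : ℝ) ^ (16 * M * ρ) * (N + 1) ^ (37 * ρ + 2) / (b : ℝ) ^ (39 * ρ) ≤
      (b : ℝ) ^ 2 * (1 / 2) ^ ρ := by
  have hb0 := b_pos hb
  have h1 : (2 : ℝ) * 4 ^ (16 * M) ≤ (b : ℝ) ^ 2 := by exact_mod_cast hbig
  have h2 : (N : ℝ) + 1 ≤ b := by linarith [b_ge hb, show (0:ℝ) ≤ N by positivity]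
  rw [div_le_iff₀ (by positivity)]
  calc (4 : ℝ) ^ (16 * M * ρ) * (N + 1) ^ (37 * ρ + 2)
      ≤ (4 : ℝ) ^ (16 * M * ρ) * (b : ℝ) ^ (37 * ρ + 2) := by gcongr
    _ = (4 ^ (16 * M)) ^ ρ * ((b : ℝ) ^ (37 * ρ) * (b : ℝ) ^ 2) := by
        rw [pow_mul, pow_add]
    _ ≤ ((b : ℝ) ^ 2 / 2) ^ ρ * ((b : ℝ) ^ (37 * ρ) * (b : ℝ) ^ 2) := by
        gcongr
        linarith
    _ = (b : ℝ) ^ 2 * (1 / 2) ^ ρ * (b : ℝ) ^ (39 * ρ) := by
        rw [show 39 * ρ = 37 * ρ + 2 * ρ by ring, pow_add, pow_mul (b : ℝ) 2 ρ, div_pow, div_pow,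
          one_pow]
        ring

/-- the set of points with eventually good scales along a sequence has small dimension -/
lemma dimH_good (hbig : 2 * 4 ^ (16 * M) ≤ b ^ 2) {φ : ℕ → ℕ} (hφ : StrictMono φ) (J : ℕ) :
    dimH (⋂ j, ⋂ (_ : J ≤ j), (Bad (TT hb hM8 hM2) (fun y => tp y) (16 * M) (φ j))ᶜ) ≤
      ((39 / (16 * (M : ℝ≥0)) : ℝ≥0) : ℝ≥0∞) := by
  classical
  have hb0 := b_pos hb
  have hb4 := b_ge4 hb
  have hM : 0 < M := by omega
  have hMr : (0:ℝ) < M := by exact_mod_cast hM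
  set d : ℝ≥0 := 39 / (16 * (M : ℝ≥0)) with hd
  have hdr : (d : ℝ) = 39 / (16 * (M : ℝ)) := by rw [hd]; push_cast; rfl
  have hd0 : (0:ℝ) < d := by rw [hdr]; positivity
  set G := (⋂ j, ⋂ (_ : J ≤ j), (Bad (TT hb hM8 hM2) (fun y => tp y) (16 * M) (φ j))ᶜ) with hG
  let R : ℕ → ℝ≥0∞ := fun j => ENNReal.ofReal (2 * ((N + 1) / (b : ℝ) ^ (16 * M * φ j)))
  let ι : ℕ → Type := fun j => {a // a ∈ PS N (16 * M * φ j) (37 * φ j + 2)}
  let t : ∀ j, ι j → Set (XX N b M) := fun j a =>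
    {x | ∃ ω : Sq N, cod b M ω = x ∧ pf M (16 * M * φ j) ω = a.1}
  have ht : ∀ j, ∀ a, Metric.ediam (t j a) ≤ R j := by
    intro j a
    apply Metric.ediam_le
    rintro x ⟨ω, hω, hωa⟩ y ⟨ω', hω', hωa'⟩
    rw [edist_dist]
    apply ENNReal.ofReal_le_ofReal
    rw [Subtype.dist_eq, ← hω, ← hω']
    apply dist_cod_le hb hM8 hM2
    intro e q hq
    have h1 := pf_val hM8 hM2 ω (⟨e, ⟨q, hq⟩⟩ : Fin 2 × Fin (16 * M * φ j))
    have h2 := pf_val hM8 hM2 ω' (⟨e, ⟨q, hq⟩⟩ : Fin 2 × Fin (16 * M * φ j))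
    rw [hωa] at h1
    rw [hωa', h1] at h2
    exact h2
  have hst : ∀ᶠ j in atTop, G ⊆ ⋃ a, t j a := by
    filter_upwards [eventually_ge_atTop J] with j hj
    intro x hx
    obtain ⟨ω, hω⟩ := x.2
    have h1 : x ∉ Bad (TT hb hM8 hM2) (fun y => tp y) (16 * M) (φ j) := by
      rw [hG] at hx
      simp only [Set.mem_iInter, Set.mem_compl_iff] at hx
      exact hx j hj
    have h2 := good_gd hb hM8 hM2 hω h1
    exact Set.mem_iUnion.2 ⟨⟨pf M (16 * M * φ j) ω, pf_mem hM8 hM2 h2⟩, ω, hω, rfl⟩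
  have hφt : Tendsto φ atTop atTop := hφ.tendsto_atTop
  have hhalf : Tendsto (fun j => (1 / 2 : ℝ) ^ φ j) atTop (𝓝 0) :=
    (_root_.tendsto_pow_atTop_nhds_zero_of_lt_one (by norm_num) (by norm_num)).comp hφt
  -- real bound for the sums
  have hsum : ∀ j, ∑ a : ι j, Metric.ediam (t j a) ^ (d : ℝ) ≤
      ENNReal.ofReal ((2 * ((N : ℝ) + 1)) ^ (d : ℝ) * ((b : ℝ) ^ 2 * (1 / 2) ^ φ j)) := by
    intro j
    set ρ := φ j with hρ
    have h1 : ∀ a : ι j, Metric.ediam (t j a) ^ (d : ℝ) ≤ (R j) ^ (d : ℝ) :=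
      fun a => ENNReal.rpow_le_rpow (ht j a) hd0.le
    refine (Finset.sum_le_sum (fun a _ => h1 a)).trans ?_
    rw [Finset.sum_const, Finset.card_univ, Fintype.card_coe, nsmul_eq_mul]
    have h2 : (R j) ^ (d : ℝ) = ENNReal.ofReal ((2 * ((N : ℝ) + 1)) ^ (d : ℝ) / (b : ℝ) ^ (39 * ρ)) := by
      show (ENNReal.ofReal _) ^ (d : ℝ) = _
      rw [ENNReal.ofReal_rpow_of_nonneg (by positivity) hd0.le]
      congr 1
      rw [← mul_div_assoc, Real.div_rpow (by positivity) (by positivity)]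
      congr 1
      rw [← Real.rpow_natCast, ← Real.rpow_mul hb0.le, ← Real.rpow_natCast]
      congr 1
      rw [hdr]
      push_cast
      field_simp
      rfl
    rw [h2]
    have h3 : ((#(PS N (16 * M * φ j) (37 * φ j + 2)) : ℕ) : ℝ≥0∞) ≤
        ENNReal.ofReal ((4 : ℝ) ^ (16 * M * ρ) * (N + 1) ^ (37 * ρ + 2)) := by
      rw [← ENNReal.ofReal_natCast]
      apply ENNReal.ofReal_le_ofReal
      have := PS_card N (16 * M * ρ) (37 * ρ + 2)
      exact_mod_cast this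
    calc _ ≤ ENNReal.ofReal ((4 : ℝ) ^ (16 * M * ρ) * (N + 1) ^ (37 * ρ + 2)) *
          ENNReal.ofReal ((2 * ((N : ℝ) + 1)) ^ (d : ℝ) / (b : ℝ) ^ (39 * ρ)) := by gcongr
      _ = ENNReal.ofReal ((2 * ((N : ℝ) + 1)) ^ (d : ℝ) *
          ((4 : ℝ) ^ (16 * M * ρ) * (N + 1) ^ (37 * ρ + 2) / (b : ℝ) ^ (39 * ρ))) := by
          rw [← ENNReal.ofReal_mul (by positivity)]
          congr 1
          ring
      _ ≤ _ := by
          apply ENNReal.ofReal_le_ofReal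
          apply mul_le_mul_of_nonneg_left _ (by positivity)
          exact num_bound hb hbig ρ
  have hlim : Tendsto (fun j => ENNReal.ofReal ((2 * ((N : ℝ) + 1)) ^ (d : ℝ) *
      ((b : ℝ) ^ 2 * (1 / 2) ^ φ j))) atTop (𝓝 0) := by
    rw [← ENNReal.ofReal_zero]
    apply ENNReal.tendsto_ofReal
    have := (hhalf.const_mul ((b : ℝ) ^ 2)).const_mul ((2 * ((N : ℝ) + 1)) ^ (d : ℝ))
    simpa using this
  have hsum0 : Tendsto (fun j => ∑ a : ι j, Metric.ediam (t j a) ^ (d : ℝ)) atTop (𝓝 0) :=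
    tendsto_of_tendsto_of_tendsto_of_le_of_le tendsto_const_nhds hlim (fun _ => zero_le) hsum
  have hR : Tendsto R atTop (𝓝 0) := by
    rw [← ENNReal.ofReal_zero]
    apply ENNReal.tendsto_ofReal
    have h1 : ∀ j, 2 * (((N : ℝ) + 1) / (b : ℝ) ^ (16 * M * φ j)) ≤
        2 * ((N : ℝ) + 1) * (1 / 2) ^ φ j := by
      intro j
      have h2 : (2 : ℝ) ^ φ j ≤ (b : ℝ) ^ (16 * M * φ j) := by
        calc (2 : ℝ) ^ φ j ≤ (b : ℝ) ^ φ j := by gcongr; linarith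
          _ ≤ (b : ℝ) ^ (16 * M * φ j) := pow_le_pow_right₀ (by linarith) (by
              have : 1 * φ j ≤ (16 * M) * φ j := Nat.mul_le_mul_right _ (by omega)
              omega)
      have h3 : ((N : ℝ) + 1) / (b : ℝ) ^ (16 * M * φ j) ≤ ((N : ℝ) + 1) / (2 : ℝ) ^ φ j := by
        gcongr
      calc 2 * (((N : ℝ) + 1) / (b : ℝ) ^ (16 * M * φ j)) ≤ 2 * (((N : ℝ) + 1) / (2 : ℝ) ^ φ j) := by
            linarith
        _ = 2 * ((N : ℝ) + 1) * (1 / 2) ^ φ j := by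
            rw [div_pow, one_pow]; ring
    have h3 := hhalf.const_mul (2 * ((N : ℝ) + 1))
    rw [mul_zero] at h3
    exact tendsto_of_tendsto_of_tendsto_of_le_of_le tendsto_const_nhds h3
      (fun j => by positivity) h1
  have hmain := Measure.hausdorffMeasure_le_liminf_sum (d : ℝ) G R hR t
    (Eventually.of_forall ht) hst
  rw [hsum0.liminf_eq] at hmain
  apply dimH_le_of_hausdorffMeasure_ne_top
  exact ne_top_of_le_ne_top ENNReal.zero_ne_top hmain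

/-- every invariant probability measure has dimension at most `39 / (16 M)` -/
lemma upper (hbig : 2 * 4 ^ (16 * M) ≤ b ^ 2) (μ : Measure (XX N b M)) [IsProbabilityMeasure μ]
    (hT : MeasurePreserving (TT hb hM8 hM2) μ μ) :
    ∃ A : Set (XX N b M), MeasurableSet A ∧ μ A = 1 ∧
      dimH A ≤ ((39 / (16 * (M : ℝ≥0)) : ℝ≥0) : ℝ≥0∞) := by
  have hty : Measurable (fun y : XX N b M => tp y) := tp_meas.comp measurable_subtype_coe
  obtain ⟨φ, hφ, h1⟩ := exists_good_seq hT hty (16 * M)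
  refine ⟨_, ?_, h1, ?_⟩
  · refine MeasurableSet.iUnion fun J => MeasurableSet.iInter fun j => MeasurableSet.iInter fun _ => ?_
    exact (Bad_meas hT.measurable hty _ _).compl
  · rw [dimH_iUnion]
    exact iSup_le fun J => dimH_good hb hM8 hM2 hbig hφ J

end

end Pool.Agent.PlanarGap
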